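import Pool.Agent.Gen.TY.FC.GrpAB
import Pool.Agent.Helper20.TY.FrameX

/-!
MP_8ee768_co, project TH-Y', stage F: the starts of the groups of the type A for every class.
-/

set_option autoImplicit false

namespace Pool.Agent.Gen.TY.FS

open Pool.Agent.Gen.TY.FC
open Pool.Agent.Helper20.TY (SufG mkS)

def sA_0 : SufG GrpA 0 :=
  mkS GrpA 0 0 0 0 0 0 (by decide +kernel)
def sA_1 : SufG GrpA 1 :=
  mkS GrpA 1 1 0 0 0 0 (by decide +kernel)
def sA_2 : SufG GrpA 2 :=
  mkS GrpA 2 1 0 0 0 0 (by decide +kernel)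
def sA_3 : SufG GrpA 3 :=
  mkS GrpA 3 1 0 0 0 0 (by decide +kernel)
def sA_4 : SufG GrpA 4 :=
  mkS GrpA 4 3 0 0 0 0 (by decide +kernel)
def sA_5 : SufG GrpA 5 :=
  mkS GrpA 5 4 0 0 0 0 (by decide +kernel)
def sA_6 : SufG GrpA 6 :=
  mkS GrpA 6 4 0 0 0 0 (by decide +kernel)
def sA_7 : SufG GrpA 7 :=
  mkS GrpA 7 4 0 0 0 0 (by decide +kernel)
def sA_8 : SufG GrpA 8 :=
  mkS GrpA 8 4 0 0 0 0 (by decide +kernel)
def sA_9 : SufG GrpA 9 :=
  mkS GrpA 9 7 0 0 0 0 (by decide +kernel)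
def sA_10 : SufG GrpA 10 :=
  mkS GrpA 10 10 0 0 0 0 (by decide +kernel)
def sA_11 : SufG GrpA 11 :=
  mkS GrpA 11 14 0 0 0 0 (by decide +kernel)
def sA_12 : SufG GrpA 12 :=
  mkS GrpA 12 15 0 0 0 0 (by decide +kernel)
def sA_13 : SufG GrpA 13 :=
  mkS GrpA 13 16 0 0 0 0 (by decide +kernel)
def sA_14 : SufG GrpA 14 :=
  mkS GrpA 14 16 1 0 3 0 (by decide +kernel)
def sA_15 : SufG GrpA 15 :=
  mkS GrpA 15 16 3 0 8 0 (by decide +kernel)
def sA_16 : SufG GrpA 16 :=
  mkS GrpA 16 16 5 0 13 0 (by decide +kernel)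
def sA_17 : SufG GrpA 17 :=
  mkS GrpA 17 16 5 0 19 0 (by decide +kernel)
def sA_18 : SufG GrpA 18 :=
  mkS GrpA 18 16 5 0 25 0 (by decide +kernel)
def sA_19 : SufG GrpA 19 :=
  mkS GrpA 19 16 7 0 29 0 (by decide +kernel)
def sA_20 : SufG GrpA 20 :=
  mkS GrpA 20 16 8 0 32 0 (by decide +kernel)
def sA_21 : SufG GrpA 21 :=
  mkS GrpA 21 16 8 0 36 0 (by decide +kernel)
def sA_22 : SufG GrpA 22 :=
  mkS GrpA 22 16 8 0 41 0 (by decide +kernel)
def sA_23 : SufG GrpA 23 :=
  mkS GrpA 23 16 8 0 41 0 (by decide +kernel)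
def sA_24 : SufG GrpA 24 :=
  mkS GrpA 24 16 8 0 41 0 (by decide +kernel)
def sA_25 : SufG GrpA 25 :=
  mkS GrpA 25 16 8 0 41 0 (by decide +kernel)
def sA_26 : SufG GrpA 26 :=
  mkS GrpA 26 16 8 0 41 0 (by decide +kernel)
def sA_27 : SufG GrpA 27 :=
  mkS GrpA 27 16 8 0 41 0 (by decide +kernel)
def sA_28 : SufG GrpA 28 :=
  mkS GrpA 28 16 11 0 45 0 (by decide +kernel)
def sA_29 : SufG GrpA 29 :=
  mkS GrpA 29 16 14 0 49 0 (by decide +kernel)
def sA_30 : SufG GrpA 30 :=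
  mkS GrpA 30 16 17 0 53 0 (by decide +kernel)
def sA_31 : SufG GrpA 31 :=
  mkS GrpA 31 16 17 0 59 0 (by decide +kernel)
def sA_32 : SufG GrpA 32 :=
  mkS GrpA 32 16 20 0 63 0 (by decide +kernel)
def sA_33 : SufG GrpA 33 :=
  mkS GrpA 33 16 21 0 65 0 (by decide +kernel)
def sA_34 : SufG GrpA 34 :=
  mkS GrpA 34 16 28 0 65 0 (by decide +kernel)
def sA_35 : SufG GrpA 35 :=
  mkS GrpA 35 16 31 0 65 0 (by decide +kernel)
def sA_36 : SufG GrpA 36 :=
  mkS GrpA 36 16 33 0 65 0 (by decide +kernel)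
def sA_37 : SufG GrpA 37 :=
  mkS GrpA 37 16 37 0 65 0 (by decide +kernel)
def sA_38 : SufG GrpA 38 :=
  mkS GrpA 38 16 39 0 65 0 (by decide +kernel)
def sA_39 : SufG GrpA 39 :=
  mkS GrpA 39 16 41 0 65 0 (by decide +kernel)
def sA_40 : SufG GrpA 40 :=
  mkS GrpA 40 16 41 1 65 7 (by decide +kernel)
def sA_41 : SufG GrpA 41 :=
  mkS GrpA 41 16 41 1 65 13 (by decide +kernel)
def sA_42 : SufG GrpA 42 :=
  mkS GrpA 42 16 41 1 65 16 (by decide +kernel)
def sA_43 : SufG GrpA 43 :=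
  mkS GrpA 43 16 41 1 65 18 (by decide +kernel)
def sA_44 : SufG GrpA 44 :=
  mkS GrpA 44 16 41 1 65 20 (by decide +kernel)
def sA_45 : SufG GrpA 45 :=
  mkS GrpA 45 16 41 3 65 26 (by decide +kernel)
def sA_46 : SufG GrpA 46 :=
  mkS GrpA 46 16 41 3 65 27 (by decide +kernel)
def sA_47 : SufG GrpA 47 :=
  mkS GrpA 47 16 41 3 65 32 (by decide +kernel)
def sA_48 : SufG GrpA 48 :=
  mkS GrpA 48 16 41 3 65 37 (by decide +kernel)
def sA_49 : SufG GrpA 49 :=
  mkS GrpA 49 16 41 3 65 42 (by decide +kernel)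
def sA_50 : SufG GrpA 50 :=
  mkS GrpA 50 16 41 4 65 46 (by decide +kernel)
def sA_51 : SufG GrpA 51 :=
  mkS GrpA 51 16 41 5 65 50 (by decide +kernel)
def sA_52 : SufG GrpA 52 :=
  mkS GrpA 52 16 41 6 65 54 (by decide +kernel)
def sA_53 : SufG GrpA 53 :=
  mkS GrpA 53 16 41 6 65 59 (by decide +kernel)
def sA_54 : SufG GrpA 54 :=
  mkS GrpA 54 16 41 6 65 64 (by decide +kernel)
def sA_55 : SufG GrpA 55 :=
  mkS GrpA 55 16 41 8 65 68 (by decide +kernel)
def sA_56 : SufG GrpA 56 :=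
  mkS GrpA 56 16 41 8 65 71 (by decide +kernel)
def sA_57 : SufG GrpA 57 :=
  mkS GrpA 57 16 41 8 65 74 (by decide +kernel)
def sA_58 : SufG GrpA 58 :=
  mkS GrpA 58 16 41 8 65 79 (by decide +kernel)
def sA_59 : SufG GrpA 59 :=
  mkS GrpA 59 16 41 8 65 84 (by decide +kernel)
def sA_60 : SufG GrpA 60 :=
  mkS GrpA 60 16 41 8 65 87 (by decide +kernel)
def sA_61 : SufG GrpA 61 :=
  mkS GrpA 61 16 41 8 65 90 (by decide +kernel)
def sA_62 : SufG GrpA 62 :=
  mkS GrpA 62 16 41 8 65 93 (by decide +kernel)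
def sA_63 : SufG GrpA 63 :=
  mkS GrpA 63 16 41 8 65 96 (by decide +kernel)
def sA_64 : SufG GrpA 64 :=
  mkS GrpA 64 16 41 8 65 101 (by decide +kernel)
def sA_65 : SufG GrpA 65 :=
  mkS GrpA 65 16 41 8 65 104 (by decide +kernel)
def sA_66 : SufG GrpA 66 :=
  mkS GrpA 66 16 41 8 65 109 (by decide +kernel)
def sA_67 : SufG GrpA 67 :=
  mkS GrpA 67 16 41 8 65 112 (by decide +kernel)
def sA_68 : SufG GrpA 68 :=
  mkS GrpA 68 16 41 10 65 117 (by decide +kernel)
def sA_69 : SufG GrpA 69 :=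
  mkS GrpA 69 16 41 10 65 121 (by decide +kernel)
def sA_70 : SufG GrpA 70 :=
  mkS GrpA 70 16 41 10 65 125 (by decide +kernel)
def sA_71 : SufG GrpA 71 :=
  mkS GrpA 71 16 41 10 65 131 (by decide +kernel)
def sA_72 : SufG GrpA 72 :=
  mkS GrpA 72 16 41 10 65 137 (by decide +kernel)
def sA_73 : SufG GrpA 73 :=
  mkS GrpA 73 16 41 10 65 141 (by decide +kernel)
def sA_74 : SufG GrpA 74 :=
  mkS GrpA 74 16 41 10 65 143 (by decide +kernel)
def sA_75 : SufG GrpA 75 :=
  mkS GrpA 75 16 41 10 65 148 (by decide +kernel)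
def sA_76 : SufG GrpA 76 :=
  mkS GrpA 76 16 41 10 65 153 (by decide +kernel)
def sA_77 : SufG GrpA 77 :=
  mkS GrpA 77 16 41 10 65 154 (by decide +kernel)
def sA_78 : SufG GrpA 78 :=
  mkS GrpA 78 16 41 10 65 157 (by decide +kernel)
def sA_79 : SufG GrpA 79 :=
  mkS GrpA 79 16 41 10 65 158 (by decide +kernel)
def sA_80 : SufG GrpA 80 :=
  mkS GrpA 80 16 41 10 65 163 (by decide +kernel)
def sA_81 : SufG GrpA 81 :=
  mkS GrpA 81 16 41 10 65 168 (by decide +kernel)
def sA_82 : SufG GrpA 82 :=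
  mkS GrpA 82 16 41 11 65 173 (by decide +kernel)
def sA_83 : SufG GrpA 83 :=
  mkS GrpA 83 16 41 11 65 175 (by decide +kernel)
def sA_84 : SufG GrpA 84 :=
  mkS GrpA 84 16 41 11 65 177 (by decide +kernel)
def sA_85 : SufG GrpA 85 :=
  mkS GrpA 85 16 41 11 65 182 (by decide +kernel)
def sA_86 : SufG GrpA 86 :=
  mkS GrpA 86 16 41 11 65 187 (by decide +kernel)
def sA_87 : SufG GrpA 87 :=
  mkS GrpA 87 16 41 11 65 192 (by decide +kernel)
def sA_88 : SufG GrpA 88 :=
  mkS GrpA 88 16 41 11 65 197 (by decide +kernel)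
def sA_89 : SufG GrpA 89 :=
  mkS GrpA 89 16 41 11 65 202 (by decide +kernel)
def sA_90 : SufG GrpA 90 :=
  mkS GrpA 90 16 41 11 65 207 (by decide +kernel)
def sA_91 : SufG GrpA 91 :=
  mkS GrpA 91 16 41 11 65 212 (by decide +kernel)
def sA_92 : SufG GrpA 92 :=
  mkS GrpA 92 16 41 11 65 217 (by decide +kernel)
def sA_93 : SufG GrpA 93 :=
  mkS GrpA 93 16 41 12 65 221 (by decide +kernel)
def sA_94 : SufG GrpA 94 :=
  mkS GrpA 94 16 41 12 65 225 (by decide +kernel)
def sA_95 : SufG GrpA 95 :=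
  mkS GrpA 95 16 41 14 65 231 (by decide +kernel)
def sA_96 : SufG GrpA 96 :=
  mkS GrpA 96 16 41 16 65 237 (by decide +kernel)
def sA_97 : SufG GrpA 97 :=
  mkS GrpA 97 16 41 16 65 241 (by decide +kernel)
def sA_98 : SufG GrpA 98 :=
  mkS GrpA 98 16 41 18 65 244 (by decide +kernel)
def sA_99 : SufG GrpA 99 :=
  mkS GrpA 99 16 41 19 65 249 (by decide +kernel)
def sA_100 : SufG GrpA 100 :=
  mkS GrpA 100 16 41 21 65 252 (by decide +kernel)
def sA_101 : SufG GrpA 101 :=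
  mkS GrpA 101 16 41 23 65 255 (by decide +kernel)
def sA_102 : SufG GrpA 102 :=
  mkS GrpA 102 16 41 25 65 259 (by decide +kernel)
def sA_103 : SufG GrpA 103 :=
  mkS GrpA 103 16 41 27 65 263 (by decide +kernel)
def sA_104 : SufG GrpA 104 :=
  mkS GrpA 104 16 41 28 65 268 (by decide +kernel)
def sA_105 : SufG GrpA 105 :=
  mkS GrpA 105 16 41 29 65 271 (by decide +kernel)
def sA_106 : SufG GrpA 106 :=
  mkS GrpA 106 16 41 30 65 275 (by decide +kernel)
def sA_107 : SufG GrpA 107 :=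
  mkS GrpA 107 16 41 31 65 279 (by decide +kernel)
def sA_108 : SufG GrpA 108 :=
  mkS GrpA 108 16 41 32 65 283 (by decide +kernel)
def sA_109 : SufG GrpA 109 :=
  mkS GrpA 109 16 41 33 65 288 (by decide +kernel)
def sA_110 : SufG GrpA 110 :=
  mkS GrpA 110 16 41 33 65 292 (by decide +kernel)
def sA_111 : SufG GrpA 111 :=
  mkS GrpA 111 16 41 33 65 297 (by decide +kernel)
def sA_112 : SufG GrpA 112 :=
  mkS GrpA 112 16 41 33 65 298 (by decide +kernel)
def sA_113 : SufG GrpA 113 :=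
  mkS GrpA 113 16 41 33 65 303 (by decide +kernel)
def sA_114 : SufG GrpA 114 :=
  mkS GrpA 114 16 41 33 65 304 (by decide +kernel)
def sA_115 : SufG GrpA 115 :=
  mkS GrpA 115 16 41 33 65 307 (by decide +kernel)
def sA_116 : SufG GrpA 116 :=
  mkS GrpA 116 16 41 33 65 308 (by decide +kernel)
def sA_117 : SufG GrpA 117 :=
  mkS GrpA 117 16 41 33 65 314 (by decide +kernel)
def sA_118 : SufG GrpA 118 :=
  mkS GrpA 118 16 41 34 65 315 (by decide +kernel)
def sA_119 : SufG GrpA 119 :=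
  mkS GrpA 119 16 41 34 65 320 (by decide +kernel)
def sA_120 : SufG GrpA 120 :=
  mkS GrpA 120 16 41 34 65 326 (by decide +kernel)
def sA_121 : SufG GrpA 121 :=
  mkS GrpA 121 16 41 34 65 330 (by decide +kernel)
def sA_122 : SufG GrpA 122 :=
  mkS GrpA 122 16 41 35 65 335 (by decide +kernel)
def sA_123 : SufG GrpA 123 :=
  mkS GrpA 123 16 41 37 65 340 (by decide +kernel)
def sA_124 : SufG GrpA 124 :=
  mkS GrpA 124 16 41 38 65 344 (by decide +kernel)
def sA_125 : SufG GrpA 125 :=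
  mkS GrpA 125 16 41 38 65 351 (by decide +kernel)
def sA_126 : SufG GrpA 126 :=
  mkS GrpA 126 16 41 38 65 358 (by decide +kernel)
def sA_127 : SufG GrpA 127 :=
  mkS GrpA 127 16 41 38 65 362 (by decide +kernel)
def sA_128 : SufG GrpA 128 :=
  mkS GrpA 128 16 41 38 65 369 (by decide +kernel)
def sA_129 : SufG GrpA 129 :=
  mkS GrpA 129 16 41 38 65 372 (by decide +kernel)
def sA_130 : SufG GrpA 130 :=
  mkS GrpA 130 16 41 38 65 377 (by decide +kernel)
def sA_131 : SufG GrpA 131 :=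
  mkS GrpA 131 16 41 38 65 382 (by decide +kernel)
def sA_132 : SufG GrpA 132 :=
  mkS GrpA 132 16 41 38 65 387 (by decide +kernel)
def sA_133 : SufG GrpA 133 :=
  mkS GrpA 133 16 41 38 65 392 (by decide +kernel)
def sA_134 : SufG GrpA 134 :=
  mkS GrpA 134 16 41 41 65 395 (by decide +kernel)
def sA_135 : SufG GrpA 135 :=
  mkS GrpA 135 16 41 43 65 397 (by decide +kernel)
def sA_136 : SufG GrpA 136 :=
  mkS GrpA 136 16 41 44 65 399 (by decide +kernel)
def sA_137 : SufG GrpA 137 :=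
  mkS GrpA 137 16 41 44 65 404 (by decide +kernel)
def sA_138 : SufG GrpA 138 :=
  mkS GrpA 138 16 41 44 65 409 (by decide +kernel)
def sA_139 : SufG GrpA 139 :=
  mkS GrpA 139 16 41 44 65 414 (by decide +kernel)
def sA_140 : SufG GrpA 140 :=
  mkS GrpA 140 16 41 44 65 419 (by decide +kernel)
def sA_141 : SufG GrpA 141 :=
  mkS GrpA 141 16 41 44 65 424 (by decide +kernel)
def sA_142 : SufG GrpA 142 :=
  mkS GrpA 142 16 41 44 65 425 (by decide +kernel)
def sA_143 : SufG GrpA 143 :=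
  mkS GrpA 143 16 41 45 65 429 (by decide +kernel)
def sA_144 : SufG GrpA 144 :=
  mkS GrpA 144 16 41 46 65 431 (by decide +kernel)
def sA_145 : SufG GrpA 145 :=
  mkS GrpA 145 16 41 48 65 435 (by decide +kernel)
def sA_146 : SufG GrpA 146 :=
  mkS GrpA 146 16 41 50 65 439 (by decide +kernel)
def sA_147 : SufG GrpA 147 :=
  mkS GrpA 147 16 41 51 65 444 (by decide +kernel)
def sA_148 : SufG GrpA 148 :=
  mkS GrpA 148 16 41 51 65 447 (by decide +kernel)
def sA_149 : SufG GrpA 149 :=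
  mkS GrpA 149 16 41 52 65 451 (by decide +kernel)
def sA_150 : SufG GrpA 150 :=
  mkS GrpA 150 16 41 53 65 456 (by decide +kernel)
def sA_151 : SufG GrpA 151 :=
  mkS GrpA 151 16 41 54 65 462 (by decide +kernel)
def sA_152 : SufG GrpA 152 :=
  mkS GrpA 152 16 41 54 65 466 (by decide +kernel)
def sA_153 : SufG GrpA 153 :=
  mkS GrpA 153 16 41 54 65 466 (by decide +kernel)
def sA_154 : SufG GrpA 154 :=
  mkS GrpA 154 16 41 54 65 466 (by decide +kernel)
def sA_155 : SufG GrpA 155 :=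
  mkS GrpA 155 16 41 55 65 471 (by decide +kernel)
def sA_156 : SufG GrpA 156 :=
  mkS GrpA 156 16 41 56 65 473 (by decide +kernel)
def sA_157 : SufG GrpA 157 :=
  mkS GrpA 157 16 41 57 65 477 (by decide +kernel)
def sA_158 : SufG GrpA 158 :=
  mkS GrpA 158 16 41 58 65 482 (by decide +kernel)
def sA_159 : SufG GrpA 159 :=
  mkS GrpA 159 16 41 59 65 487 (by decide +kernel)
def sA_160 : SufG GrpA 160 :=
  mkS GrpA 160 16 41 60 65 492 (by decide +kernel)
def sA_161 : SufG GrpA 161 :=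
  mkS GrpA 161 16 41 61 65 497 (by decide +kernel)
def sA_162 : SufG GrpA 162 :=
  mkS GrpA 162 16 41 62 65 503 (by decide +kernel)
def sA_163 : SufG GrpA 163 :=
  mkS GrpA 163 16 41 63 65 508 (by decide +kernel)
def sA_164 : SufG GrpA 164 :=
  mkS GrpA 164 16 41 64 65 513 (by decide +kernel)
def sA_165 : SufG GrpA 165 :=
  mkS GrpA 165 16 41 65 65 518 (by decide +kernel)
def sA_166 : SufG GrpA 166 :=
  mkS GrpA 166 16 41 66 65 523 (by decide +kernel)
def sA_167 : SufG GrpA 167 :=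
  mkS GrpA 167 16 41 67 65 528 (by decide +kernel)
def sA_168 : SufG GrpA 168 :=
  mkS GrpA 168 16 41 68 65 533 (by decide +kernel)
def sA_169 : SufG GrpA 169 :=
  mkS GrpA 169 16 41 69 65 538 (by decide +kernel)
def sA_170 : SufG GrpA 170 :=
  mkS GrpA 170 16 41 70 65 543 (by decide +kernel)
def sA_171 : SufG GrpA 171 :=
  mkS GrpA 171 16 41 71 65 547 (by decide +kernel)
def sA_172 : SufG GrpA 172 :=
  mkS GrpA 172 16 41 72 65 551 (by decide +kernel)
def sA_173 : SufG GrpA 173 :=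
  mkS GrpA 173 16 41 73 65 555 (by decide +kernel)
def sA_174 : SufG GrpA 174 :=
  mkS GrpA 174 16 41 74 65 559 (by decide +kernel)
def sA_175 : SufG GrpA 175 :=
  mkS GrpA 175 16 41 75 65 563 (by decide +kernel)
def sA_176 : SufG GrpA 176 :=
  mkS GrpA 176 16 41 76 65 567 (by decide +kernel)
def sA_177 : SufG GrpA 177 :=
  mkS GrpA 177 16 41 77 65 571 (by decide +kernel)
def sA_178 : SufG GrpA 178 :=
  mkS GrpA 178 16 41 78 65 576 (by decide +kernel)
def sA_179 : SufG GrpA 179 :=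
  mkS GrpA 179 16 41 78 65 579 (by decide +kernel)
def sA_180 : SufG GrpA 180 :=
  mkS GrpA 180 16 41 78 65 582 (by decide +kernel)
def sA_181 : SufG GrpA 181 :=
  mkS GrpA 181 16 41 78 65 585 (by decide +kernel)
def sA_182 : SufG GrpA 182 :=
  mkS GrpA 182 16 41 78 65 588 (by decide +kernel)
def sA_183 : SufG GrpA 183 :=
  mkS GrpA 183 16 41 78 65 594 (by decide +kernel)
def sA_184 : SufG GrpA 184 :=
  mkS GrpA 184 16 41 78 65 601 (by decide +kernel)
def sA_185 : SufG GrpA 185 :=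
  mkS GrpA 185 16 41 78 65 604 (by decide +kernel)
def sA_186 : SufG GrpA 186 :=
  mkS GrpA 186 16 41 78 65 607 (by decide +kernel)
def sA_187 : SufG GrpA 187 :=
  mkS GrpA 187 16 41 79 65 612 (by decide +kernel)
def sA_188 : SufG GrpA 188 :=
  mkS GrpA 188 16 41 80 65 617 (by decide +kernel)
def sA_189 : SufG GrpA 189 :=
  mkS GrpA 189 16 41 81 65 622 (by decide +kernel)
def sA_190 : SufG GrpA 190 :=
  mkS GrpA 190 16 41 82 65 627 (by decide +kernel)
def sA_191 : SufG GrpA 191 :=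
  mkS GrpA 191 16 41 82 65 633 (by decide +kernel)
def sA_192 : SufG GrpA 192 :=
  mkS GrpA 192 16 41 83 65 638 (by decide +kernel)
def sA_193 : SufG GrpA 193 :=
  mkS GrpA 193 16 41 85 65 642 (by decide +kernel)
def sA_194 : SufG GrpA 194 :=
  mkS GrpA 194 16 41 87 65 646 (by decide +kernel)
def sA_195 : SufG GrpA 195 :=
  mkS GrpA 195 16 41 88 65 651 (by decide +kernel)
def sA_196 : SufG GrpA 196 :=
  mkS GrpA 196 16 41 89 65 656 (by decide +kernel)
def sA_197 : SufG GrpA 197 :=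
  mkS GrpA 197 16 41 89 65 662 (by decide +kernel)
def sA_198 : SufG GrpA 198 :=
  mkS GrpA 198 16 41 90 65 667 (by decide +kernel)
def sA_199 : SufG GrpA 199 :=
  mkS GrpA 199 16 41 91 65 672 (by decide +kernel)
def sA_200 : SufG GrpA 200 :=
  mkS GrpA 200 16 41 91 65 675 (by decide +kernel)
def sA_201 : SufG GrpA 201 :=
  mkS GrpA 201 16 41 91 65 678 (by decide +kernel)
def sA_202 : SufG GrpA 202 :=
  mkS GrpA 202 16 41 91 65 684 (by decide +kernel)
def sA_203 : SufG GrpA 203 :=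
  mkS GrpA 203 16 41 92 65 689 (by decide +kernel)
def sA_204 : SufG GrpA 204 :=
  mkS GrpA 204 16 41 93 65 694 (by decide +kernel)
def sA_205 : SufG GrpA 205 :=
  mkS GrpA 205 16 41 93 65 694 (by decide +kernel)
def sA_206 : SufG GrpA 206 :=
  mkS GrpA 206 16 41 93 65 694 (by decide +kernel)
def sA_207 : SufG GrpA 207 :=
  mkS GrpA 207 16 41 93 65 694 (by decide +kernel)
def sA_208 : SufG GrpA 208 :=
  mkS GrpA 208 16 41 93 65 694 (by decide +kernel)
def sA_209 : SufG GrpA 209 :=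
  mkS GrpA 209 16 41 94 65 696 (by decide +kernel)
def sA_210 : SufG GrpA 210 :=
  mkS GrpA 210 16 41 94 65 697 (by decide +kernel)
def sA_211 : SufG GrpA 211 :=
  mkS GrpA 211 16 41 94 65 698 (by decide +kernel)
def sA_212 : SufG GrpA 212 :=
  mkS GrpA 212 16 41 94 65 700 (by decide +kernel)
def sA_213 : SufG GrpA 213 :=
  mkS GrpA 213 16 41 102 65 700 (by decide +kernel)
def sA_214 : SufG GrpA 214 :=
  mkS GrpA 214 16 41 106 65 700 (by decide +kernel)
def sA_215 : SufG GrpA 215 :=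
  mkS GrpA 215 16 41 114 65 700 (by decide +kernel)
def sA_216 : SufG GrpA 216 :=
  mkS GrpA 216 16 41 122 65 700 (by decide +kernel)
def sA_217 : SufG GrpA 217 :=
  mkS GrpA 217 16 41 123 65 700 (by decide +kernel)
def sA_218 : SufG GrpA 218 :=
  mkS GrpA 218 16 41 125 65 700 (by decide +kernel)
def sA_219 : SufG GrpA 219 :=
  mkS GrpA 219 16 41 133 65 700 (by decide +kernel)
def sA_220 : SufG GrpA 220 :=
  mkS GrpA 220 16 41 135 65 700 (by decide +kernel)
def sA_221 : SufG GrpA 221 :=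
  mkS GrpA 221 16 41 139 65 700 (by decide +kernel)
def sA_222 : SufG GrpA 222 :=
  mkS GrpA 222 16 41 140 65 700 (by decide +kernel)
def sA_223 : SufG GrpA 223 :=
  mkS GrpA 223 16 41 148 65 700 (by decide +kernel)
def sA_224 : SufG GrpA 224 :=
  mkS GrpA 224 16 41 152 65 700 (by decide +kernel)
def sA_225 : SufG GrpA 225 :=
  mkS GrpA 225 16 41 154 65 700 (by decide +kernel)
def sA_226 : SufG GrpA 226 :=
  mkS GrpA 226 16 41 159 65 700 (by decide +kernel)
def sA_227 : SufG GrpA 227 :=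
  mkS GrpA 227 16 41 163 65 700 (by decide +kernel)
def sA_228 : SufG GrpA 228 :=
  mkS GrpA 228 16 41 164 65 700 (by decide +kernel)
def sA_229 : SufG GrpA 229 :=
  mkS GrpA 229 16 41 168 65 700 (by decide +kernel)
def sA_230 : SufG GrpA 230 :=
  mkS GrpA 230 16 41 169 65 700 (by decide +kernel)
def sA_231 : SufG GrpA 231 :=
  mkS GrpA 231 16 41 171 65 700 (by decide +kernel)
def sA_232 : SufG GrpA 232 :=
  mkS GrpA 232 16 41 173 65 700 (by decide +kernel)
def sA_233 : SufG GrpA 233 :=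
  mkS GrpA 233 16 41 175 65 700 (by decide +kernel)
def sA_234 : SufG GrpA 234 :=
  mkS GrpA 234 16 41 178 65 700 (by decide +kernel)
def sA_235 : SufG GrpA 235 :=
  mkS GrpA 235 16 41 179 65 700 (by decide +kernel)
def sA_236 : SufG GrpA 236 :=
  mkS GrpA 236 16 41 180 65 700 (by decide +kernel)
def sA_237 : SufG GrpA 237 :=
  mkS GrpA 237 16 41 181 65 700 (by decide +kernel)
def sA_238 : SufG GrpA 238 :=
  mkS GrpA 238 16 41 181 65 700 (by decide +kernel)
def sA_239 : SufG GrpA 239 :=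
  mkS GrpA 239 16 41 187 65 700 (by decide +kernel)
def sA_240 : SufG GrpA 240 :=
  mkS GrpA 240 16 41 187 65 700 (by decide +kernel)
def sA_241 : SufG GrpA 241 :=
  mkS GrpA 241 16 41 187 65 700 (by decide +kernel)
def sA_242 : SufG GrpA 242 :=
  mkS GrpA 242 16 41 187 65 700 (by decide +kernel)
def sA_243 : SufG GrpA 243 :=
  mkS GrpA 243 16 41 191 65 700 (by decide +kernel)
def sA_244 : SufG GrpA 244 :=
  mkS GrpA 244 16 41 195 65 700 (by decide +kernel)
def sA_245 : SufG GrpA 245 :=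
  mkS GrpA 245 16 41 199 65 700 (by decide +kernel)
def sA_246 : SufG GrpA 246 :=
  mkS GrpA 246 16 41 203 65 700 (by decide +kernel)
def sA_247 : SufG GrpA 247 :=
  mkS GrpA 247 16 41 208 65 700 (by decide +kernel)
def sA_248 : SufG GrpA 248 :=
  mkS GrpA 248 16 41 214 65 700 (by decide +kernel)
def sA_249 : SufG GrpA 249 :=
  mkS GrpA 249 16 41 216 65 700 (by decide +kernel)
def sA_250 : SufG GrpA 250 :=
  mkS GrpA 250 16 41 221 65 700 (by decide +kernel)
def sA_251 : SufG GrpA 251 :=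
  mkS GrpA 251 16 41 223 65 700 (by decide +kernel)
def sA_252 : SufG GrpA 252 :=
  mkS GrpA 252 16 41 227 65 700 (by decide +kernel)
def sA_253 : SufG GrpA 253 :=
  mkS GrpA 253 16 41 233 65 700 (by decide +kernel)
def sA_254 : SufG GrpA 254 :=
  mkS GrpA 254 16 41 237 65 700 (by decide +kernel)
def sA_255 : SufG GrpA 255 :=
  mkS GrpA 255 16 41 243 65 700 (by decide +kernel)
def sA_256 : SufG GrpA 256 :=
  mkS GrpA 256 16 41 248 65 700 (by decide +kernel)
def sA_257 : SufG GrpA 257 :=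
  mkS GrpA 257 16 41 252 65 700 (by decide +kernel)
def sA_258 : SufG GrpA 258 :=
  mkS GrpA 258 16 41 255 65 700 (by decide +kernel)
def sA_259 : SufG GrpA 259 :=
  mkS GrpA 259 16 41 259 65 700 (by decide +kernel)
def sA_260 : SufG GrpA 260 :=
  mkS GrpA 260 16 41 261 65 700 (by decide +kernel)
def sA_261 : SufG GrpA 261 :=
  mkS GrpA 261 16 41 266 65 700 (by decide +kernel)
def sA_262 : SufG GrpA 262 :=
  mkS GrpA 262 16 41 268 65 700 (by decide +kernel)
def sA_263 : SufG GrpA 263 :=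
  mkS GrpA 263 16 41 270 65 700 (by decide +kernel)
def sA_264 : SufG GrpA 264 :=
  mkS GrpA 264 16 41 275 65 700 (by decide +kernel)
def sA_265 : SufG GrpA 265 :=
  mkS GrpA 265 16 41 276 65 700 (by decide +kernel)
def sA_266 : SufG GrpA 266 :=
  mkS GrpA 266 16 41 278 65 700 (by decide +kernel)
def sA_267 : SufG GrpA 267 :=
  mkS GrpA 267 16 41 278 65 700 (by decide +kernel)
def sA_268 : SufG GrpA 268 :=
  mkS GrpA 268 16 41 279 65 700 (by decide +kernel)
def sA_269 : SufG GrpA 269 :=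
  mkS GrpA 269 16 41 285 65 700 (by decide +kernel)
def sA_270 : SufG GrpA 270 :=
  mkS GrpA 270 16 41 287 65 700 (by decide +kernel)
def sA_271 : SufG GrpA 271 :=
  mkS GrpA 271 16 41 291 65 700 (by decide +kernel)
def sA_272 : SufG GrpA 272 :=
  mkS GrpA 272 16 41 295 65 700 (by decide +kernel)
def sA_273 : SufG GrpA 273 :=
  mkS GrpA 273 16 41 295 65 700 (by decide +kernel)
def sA_274 : SufG GrpA 274 :=
  mkS GrpA 274 16 41 301 65 700 (by decide +kernel)
def sA_275 : SufG GrpA 275 :=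
  mkS GrpA 275 16 41 304 65 700 (by decide +kernel)
def sA_276 : SufG GrpA 276 :=
  mkS GrpA 276 16 41 304 65 700 (by decide +kernel)
def sA_277 : SufG GrpA 277 :=
  mkS GrpA 277 16 41 304 65 700 (by decide +kernel)
def sA_278 : SufG GrpA 278 :=
  mkS GrpA 278 16 41 309 65 700 (by decide +kernel)
def sA_279 : SufG GrpA 279 :=
  mkS GrpA 279 16 41 314 65 700 (by decide +kernel)
def sA_280 : SufG GrpA 280 :=
  mkS GrpA 280 16 41 319 65 700 (by decide +kernel)
def sA_281 : SufG GrpA 281 :=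
  mkS GrpA 281 16 41 322 65 700 (by decide +kernel)
def sA_282 : SufG GrpA 282 :=
  mkS GrpA 282 16 41 327 65 700 (by decide +kernel)
def sA_283 : SufG GrpA 283 :=
  mkS GrpA 283 16 41 333 65 700 (by decide +kernel)
def sA_284 : SufG GrpA 284 :=
  mkS GrpA 284 16 41 336 65 700 (by decide +kernel)
def sA_285 : SufG GrpA 285 :=
  mkS GrpA 285 16 41 341 65 700 (by decide +kernel)
def sA_286 : SufG GrpA 286 :=
  mkS GrpA 286 16 41 345 65 700 (by decide +kernel)
def sA_287 : SufG GrpA 287 :=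
  mkS GrpA 287 16 41 350 65 700 (by decide +kernel)
def sA_288 : SufG GrpA 288 :=
  mkS GrpA 288 16 41 355 65 700 (by decide +kernel)
def sA_289 : SufG GrpA 289 :=
  mkS GrpA 289 16 41 357 65 700 (by decide +kernel)
def sA_290 : SufG GrpA 290 :=
  mkS GrpA 290 16 41 362 65 700 (by decide +kernel)
def sA_291 : SufG GrpA 291 :=
  mkS GrpA 291 16 41 369 65 700 (by decide +kernel)
def sA_292 : SufG GrpA 292 :=
  mkS GrpA 292 16 41 373 65 700 (by decide +kernel)
def sA_293 : SufG GrpA 293 :=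
  mkS GrpA 293 16 41 373 65 700 (by decide +kernel)
def sA_294 : SufG GrpA 294 :=
  mkS GrpA 294 16 41 376 65 700 (by decide +kernel)
def sA_295 : SufG GrpA 295 :=
  mkS GrpA 295 16 41 379 65 700 (by decide +kernel)
def sA_296 : SufG GrpA 296 :=
  mkS GrpA 296 16 41 379 65 700 (by decide +kernel)
def sA_297 : SufG GrpA 297 :=
  mkS GrpA 297 16 41 379 65 700 (by decide +kernel)
def sA_298 : SufG GrpA 298 :=
  mkS GrpA 298 16 41 385 65 700 (by decide +kernel)
def sA_299 : SufG GrpA 299 :=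
  mkS GrpA 299 16 41 391 65 700 (by decide +kernel)
def sA_300 : SufG GrpA 300 :=
  mkS GrpA 300 16 41 395 65 700 (by decide +kernel)
def sA_301 : SufG GrpA 301 :=
  mkS GrpA 301 16 41 400 65 700 (by decide +kernel)
def sA_302 : SufG GrpA 302 :=
  mkS GrpA 302 16 41 404 65 700 (by decide +kernel)
def sA_303 : SufG GrpA 303 :=
  mkS GrpA 303 16 41 409 65 700 (by decide +kernel)
def sA_304 : SufG GrpA 304 :=
  mkS GrpA 304 16 41 414 65 700 (by decide +kernel)
def sA_305 : SufG GrpA 305 :=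
  mkS GrpA 305 16 41 418 65 700 (by decide +kernel)
def sA_306 : SufG GrpA 306 :=
  mkS GrpA 306 16 41 423 65 700 (by decide +kernel)
def sA_307 : SufG GrpA 307 :=
  mkS GrpA 307 16 41 428 65 700 (by decide +kernel)
def sA_308 : SufG GrpA 308 :=
  mkS GrpA 308 16 41 434 65 700 (by decide +kernel)
def sA_309 : SufG GrpA 309 :=
  mkS GrpA 309 16 41 439 65 700 (by decide +kernel)
def sA_310 : SufG GrpA 310 :=
  mkS GrpA 310 16 41 444 65 700 (by decide +kernel)
def sA_311 : SufG GrpA 311 :=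
  mkS GrpA 311 16 41 446 65 700 (by decide +kernel)
def sA_312 : SufG GrpA 312 :=
  mkS GrpA 312 16 41 450 65 700 (by decide +kernel)
def sA_313 : SufG GrpA 313 :=
  mkS GrpA 313 16 41 456 65 700 (by decide +kernel)
def sA_314 : SufG GrpA 314 :=
  mkS GrpA 314 16 41 461 65 700 (by decide +kernel)
def sA_315 : SufG GrpA 315 :=
  mkS GrpA 315 16 41 464 65 700 (by decide +kernel)
def sA_316 : SufG GrpA 316 :=
  mkS GrpA 316 16 41 468 65 700 (by decide +kernel)
def sA_317 : SufG GrpA 317 :=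
  mkS GrpA 317 16 41 471 65 700 (by decide +kernel)
def sA_318 : SufG GrpA 318 :=
  mkS GrpA 318 16 41 474 65 700 (by decide +kernel)
def sA_319 : SufG GrpA 319 :=
  mkS GrpA 319 16 41 475 65 700 (by decide +kernel)
def sA_320 : SufG GrpA 320 :=
  mkS GrpA 320 16 41 482 65 700 (by decide +kernel)
def sA_321 : SufG GrpA 321 :=
  mkS GrpA 321 16 41 488 65 700 (by decide +kernel)
def sA_322 : SufG GrpA 322 :=
  mkS GrpA 322 16 41 494 65 700 (by decide +kernel)
def sA_323 : SufG GrpA 323 :=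
  mkS GrpA 323 16 41 499 65 700 (by decide +kernel)
def sA_324 : SufG GrpA 324 :=
  mkS GrpA 324 16 41 501 65 700 (by decide +kernel)
def sA_325 : SufG GrpA 325 :=
  mkS GrpA 325 16 41 505 65 700 (by decide +kernel)
def sA_326 : SufG GrpA 326 :=
  mkS GrpA 326 16 41 508 65 700 (by decide +kernel)
def sA_327 : SufG GrpA 327 :=
  mkS GrpA 327 16 41 513 65 700 (by decide +kernel)
def sA_328 : SufG GrpA 328 :=
  mkS GrpA 328 16 41 517 65 700 (by decide +kernel)
def sA_329 : SufG GrpA 329 :=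
  mkS GrpA 329 16 41 523 65 700 (by decide +kernel)
def sA_330 : SufG GrpA 330 :=
  mkS GrpA 330 16 41 523 65 700 (by decide +kernel)
def sA_331 : SufG GrpA 331 :=
  mkS GrpA 331 16 41 523 65 700 (by decide +kernel)
def sA_332 : SufG GrpA 332 :=
  mkS GrpA 332 16 41 530 65 700 (by decide +kernel)
def sA_333 : SufG GrpA 333 :=
  mkS GrpA 333 16 41 537 65 700 (by decide +kernel)
def sA_334 : SufG GrpA 334 :=
  mkS GrpA 334 16 41 544 65 700 (by decide +kernel)
def sA_335 : SufG GrpA 335 :=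
  mkS GrpA 335 16 41 551 65 700 (by decide +kernel)
def sA_336 : SufG GrpA 336 :=
  mkS GrpA 336 16 41 555 65 700 (by decide +kernel)
def sA_337 : SufG GrpA 337 :=
  mkS GrpA 337 16 41 559 65 700 (by decide +kernel)
def sA_338 : SufG GrpA 338 :=
  mkS GrpA 338 16 41 566 65 700 (by decide +kernel)
def sA_339 : SufG GrpA 339 :=
  mkS GrpA 339 16 41 572 65 700 (by decide +kernel)
def sA_340 : SufG GrpA 340 :=
  mkS GrpA 340 16 41 574 65 700 (by decide +kernel)
def sA_341 : SufG GrpA 341 :=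
  mkS GrpA 341 16 41 580 65 700 (by decide +kernel)
def sA_342 : SufG GrpA 342 :=
  mkS GrpA 342 16 41 587 65 700 (by decide +kernel)
def sA_343 : SufG GrpA 343 :=
  mkS GrpA 343 16 41 594 65 700 (by decide +kernel)
def sA_344 : SufG GrpA 344 :=
  mkS GrpA 344 16 41 601 65 700 (by decide +kernel)
def sA_345 : SufG GrpA 345 :=
  mkS GrpA 345 16 41 607 65 700 (by decide +kernel)
def sA_346 : SufG GrpA 346 :=
  mkS GrpA 346 16 41 612 65 700 (by decide +kernel)
def sA_347 : SufG GrpA 347 :=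
  mkS GrpA 347 16 41 617 65 700 (by decide +kernel)
def sA_348 : SufG GrpA 348 :=
  mkS GrpA 348 16 41 623 65 700 (by decide +kernel)
def sA_349 : SufG GrpA 349 :=
  mkS GrpA 349 16 41 626 65 700 (by decide +kernel)
def sA_350 : SufG GrpA 350 :=
  mkS GrpA 350 16 41 632 65 700 (by decide +kernel)
def sA_351 : SufG GrpA 351 :=
  mkS GrpA 351 16 41 634 65 700 (by decide +kernel)
def sA_352 : SufG GrpA 352 :=
  mkS GrpA 352 16 41 639 65 700 (by decide +kernel)
def sA_353 : SufG GrpA 353 :=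
  mkS GrpA 353 16 41 645 65 700 (by decide +kernel)
def sA_354 : SufG GrpA 354 :=
  mkS GrpA 354 16 41 650 65 700 (by decide +kernel)
def sA_355 : SufG GrpA 355 :=
  mkS GrpA 355 16 41 655 65 700 (by decide +kernel)
def sA_356 : SufG GrpA 356 :=
  mkS GrpA 356 16 41 661 65 700 (by decide +kernel)
def sA_357 : SufG GrpA 357 :=
  mkS GrpA 357 16 41 664 65 700 (by decide +kernel)
def sA_358 : SufG GrpA 358 :=
  mkS GrpA 358 16 41 666 65 700 (by decide +kernel)
def sA_359 : SufG GrpA 359 :=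
  mkS GrpA 359 16 41 673 65 700 (by decide +kernel)
def sA_360 : SufG GrpA 360 :=
  mkS GrpA 360 16 41 680 65 700 (by decide +kernel)
def sA_361 : SufG GrpA 361 :=
  mkS GrpA 361 16 41 687 65 700 (by decide +kernel)
def sA_362 : SufG GrpA 362 :=
  mkS GrpA 362 16 41 689 65 700 (by decide +kernel)
def sA_363 : SufG GrpA 363 :=
  mkS GrpA 363 16 41 692 65 700 (by decide +kernel)
def sA_364 : SufG GrpA 364 :=
  mkS GrpA 364 16 41 693 65 700 (by decide +kernel)
def sA_365 : SufG GrpA 365 :=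
  mkS GrpA 365 16 41 694 65 700 (by decide +kernel)
def sA_366 : SufG GrpA 366 :=
  mkS GrpA 366 16 41 698 65 700 (by decide +kernel)
def sA_367 : SufG GrpA 367 :=
  mkS GrpA 367 16 41 702 65 700 (by decide +kernel)
def sA_368 : SufG GrpA 368 :=
  mkS GrpA 368 16 41 706 65 700 (by decide +kernel)
def sA_369 : SufG GrpA 369 :=
  mkS GrpA 369 16 41 712 65 700 (by decide +kernel)
def sA_370 : SufG GrpA 370 :=
  mkS GrpA 370 16 41 715 65 700 (by decide +kernel)
def sA_371 : SufG GrpA 371 :=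
  mkS GrpA 371 16 41 721 65 700 (by decide +kernel)
def sA_372 : SufG GrpA 372 :=
  mkS GrpA 372 16 41 727 65 700 (by decide +kernel)
def sA_373 : SufG GrpA 373 :=
  mkS GrpA 373 16 41 729 65 700 (by decide +kernel)
def sA_374 : SufG GrpA 374 :=
  mkS GrpA 374 16 41 732 65 700 (by decide +kernel)
def sA_375 : SufG GrpA 375 :=
  mkS GrpA 375 16 41 733 65 700 (by decide +kernel)
def sA_376 : SufG GrpA 376 :=
  mkS GrpA 376 16 41 738 65 700 (by decide +kernel)
def sA_377 : SufG GrpA 377 :=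
  mkS GrpA 377 16 41 740 65 700 (by decide +kernel)
def sA_378 : SufG GrpA 378 :=
  mkS GrpA 378 16 41 743 65 700 (by decide +kernel)
def sA_379 : SufG GrpA 379 :=
  mkS GrpA 379 16 41 745 65 700 (by decide +kernel)
def sA_380 : SufG GrpA 380 :=
  mkS GrpA 380 16 41 748 65 700 (by decide +kernel)
def sA_381 : SufG GrpA 381 :=
  mkS GrpA 381 16 41 751 65 700 (by decide +kernel)
def sA_382 : SufG GrpA 382 :=
  mkS GrpA 382 16 41 751 65 700 (by decide +kernel)
def sA_383 : SufG GrpA 383 :=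
  mkS GrpA 383 16 41 751 65 700 (by decide +kernel)
def sA_384 : SufG GrpA 384 :=
  mkS GrpA 384 16 41 751 65 700 (by decide +kernel)
def sA_385 : SufG GrpA 385 :=
  mkS GrpA 385 16 41 751 65 700 (by decide +kernel)
def sA_386 : SufG GrpA 386 :=
  mkS GrpA 386 16 41 751 65 700 (by decide +kernel)
def sA_387 : SufG GrpA 387 :=
  mkS GrpA 387 16 41 751 65 700 (by decide +kernel)
def sA_388 : SufG GrpA 388 :=
  mkS GrpA 388 16 41 751 65 700 (by decide +kernel)
def sA_389 : SufG GrpA 389 :=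
  mkS GrpA 389 16 41 751 65 700 (by decide +kernel)
def sA_390 : SufG GrpA 390 :=
  mkS GrpA 390 16 41 752 65 700 (by decide +kernel)
def sA_391 : SufG GrpA 391 :=
  mkS GrpA 391 16 41 752 65 700 (by decide +kernel)
def sA_392 : SufG GrpA 392 :=
  mkS GrpA 392 16 41 755 65 700 (by decide +kernel)
def sA_393 : SufG GrpA 393 :=
  mkS GrpA 393 16 41 761 65 700 (by decide +kernel)
def sA_394 : SufG GrpA 394 :=
  mkS GrpA 394 16 41 764 65 700 (by decide +kernel)
def sA_395 : SufG GrpA 395 :=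
  mkS GrpA 395 16 41 767 65 700 (by decide +kernel)
def sA_396 : SufG GrpA 396 :=
  mkS GrpA 396 16 41 773 65 700 (by decide +kernel)
def sA_397 : SufG GrpA 397 :=
  mkS GrpA 397 16 41 777 65 700 (by decide +kernel)
def sA_398 : SufG GrpA 398 :=
  mkS GrpA 398 16 41 780 65 700 (by decide +kernel)
def sA_399 : SufG GrpA 399 :=
  mkS GrpA 399 16 41 786 65 700 (by decide +kernel)
def sA_400 : SufG GrpA 400 :=
  mkS GrpA 400 16 41 792 65 700 (by decide +kernel)
def sA_401 : SufG GrpA 401 :=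
  mkS GrpA 401 16 41 799 65 700 (by decide +kernel)
def sA_402 : SufG GrpA 402 :=
  mkS GrpA 402 16 41 806 65 700 (by decide +kernel)
def sA_403 : SufG GrpA 403 :=
  mkS GrpA 403 16 41 813 65 700 (by decide +kernel)
def sA_404 : SufG GrpA 404 :=
  mkS GrpA 404 16 41 820 65 700 (by decide +kernel)
def sA_405 : SufG GrpA 405 :=
  mkS GrpA 405 16 41 827 65 700 (by decide +kernel)
def sA_406 : SufG GrpA 406 :=
  mkS GrpA 406 16 41 833 65 700 (by decide +kernel)
def sA_407 : SufG GrpA 407 :=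
  mkS GrpA 407 16 41 836 65 700 (by decide +kernel)
def sA_408 : SufG GrpA 408 :=
  mkS GrpA 408 16 41 836 65 700 (by decide +kernel)
def sA_409 : SufG GrpA 409 :=
  mkS GrpA 409 16 41 838 65 700 (by decide +kernel)
def sA_410 : SufG GrpA 410 :=
  mkS GrpA 410 16 41 839 65 700 (by decide +kernel)
def sA_411 : SufG GrpA 411 :=
  mkS GrpA 411 16 41 844 65 700 (by decide +kernel)
def sA_412 : SufG GrpA 412 :=
  mkS GrpA 412 16 41 846 65 700 (by decide +kernel)
def sA_413 : SufG GrpA 413 :=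
  mkS GrpA 413 16 41 847 65 700 (by decide +kernel)
def sA_414 : SufG GrpA 414 :=
  mkS GrpA 414 16 41 847 65 700 (by decide +kernel)
def sA_415 : SufG GrpA 415 :=
  mkS GrpA 415 16 41 850 65 700 (by decide +kernel)
def sA_416 : SufG GrpA 416 :=
  mkS GrpA 416 16 41 853 65 700 (by decide +kernel)
def sA_417 : SufG GrpA 417 :=
  mkS GrpA 417 16 41 859 65 700 (by decide +kernel)
def sA_418 : SufG GrpA 418 :=
  mkS GrpA 418 16 41 860 65 700 (by decide +kernel)
def sA_419 : SufG GrpA 419 :=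
  mkS GrpA 419 16 41 866 65 700 (by decide +kernel)
def sA_420 : SufG GrpA 420 :=
  mkS GrpA 420 16 41 869 65 700 (by decide +kernel)
def sA_421 : SufG GrpA 421 :=
  mkS GrpA 421 16 41 876 65 700 (by decide +kernel)
def sA_422 : SufG GrpA 422 :=
  mkS GrpA 422 16 41 883 65 700 (by decide +kernel)
def sA_423 : SufG GrpA 423 :=
  mkS GrpA 423 16 41 889 65 700 (by decide +kernel)
def sA_424 : SufG GrpA 424 :=
  mkS GrpA 424 16 41 892 65 700 (by decide +kernel)
def sA_425 : SufG GrpA 425 :=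
  mkS GrpA 425 16 41 895 65 700 (by decide +kernel)
def sA_426 : SufG GrpA 426 :=
  mkS GrpA 426 16 41 898 65 700 (by decide +kernel)
def sA_427 : SufG GrpA 427 :=
  mkS GrpA 427 16 41 904 65 700 (by decide +kernel)
def sA_428 : SufG GrpA 428 :=
  mkS GrpA 428 16 41 910 65 700 (by decide +kernel)
def sA_429 : SufG GrpA 429 :=
  mkS GrpA 429 16 41 916 65 700 (by decide +kernel)
def sA_430 : SufG GrpA 430 :=
  mkS GrpA 430 16 41 919 65 700 (by decide +kernel)
def sA_431 : SufG GrpA 431 :=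
  mkS GrpA 431 16 41 922 65 700 (by decide +kernel)
def sA_432 : SufG GrpA 432 :=
  mkS GrpA 432 16 41 928 65 700 (by decide +kernel)
def sA_433 : SufG GrpA 433 :=
  mkS GrpA 433 16 41 934 65 700 (by decide +kernel)
def sA_434 : SufG GrpA 434 :=
  mkS GrpA 434 16 41 940 65 700 (by decide +kernel)
def sA_435 : SufG GrpA 435 :=
  mkS GrpA 435 16 41 946 65 700 (by decide +kernel)
def sA_436 : SufG GrpA 436 :=
  mkS GrpA 436 16 41 949 65 700 (by decide +kernel)
def sA_437 : SufG GrpA 437 :=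
  mkS GrpA 437 16 41 955 65 700 (by decide +kernel)
def sA_438 : SufG GrpA 438 :=
  mkS GrpA 438 16 41 958 65 700 (by decide +kernel)
def sA_439 : SufG GrpA 439 :=
  mkS GrpA 439 16 41 964 65 700 (by decide +kernel)
def sA_440 : SufG GrpA 440 :=
  mkS GrpA 440 16 41 967 65 700 (by decide +kernel)
def sA_441 : SufG GrpA 441 :=
  mkS GrpA 441 16 41 973 65 700 (by decide +kernel)
def sA_442 : SufG GrpA 442 :=
  mkS GrpA 442 16 41 976 65 700 (by decide +kernel)
def sA_443 : SufG GrpA 443 :=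
  mkS GrpA 443 16 41 979 65 700 (by decide +kernel)
def sA_444 : SufG GrpA 444 :=
  mkS GrpA 444 16 41 985 65 700 (by decide +kernel)
def sA_445 : SufG GrpA 445 :=
  mkS GrpA 445 16 41 988 65 700 (by decide +kernel)
def sA_446 : SufG GrpA 446 :=
  mkS GrpA 446 16 41 994 65 700 (by decide +kernel)
def sA_447 : SufG GrpA 447 :=
  mkS GrpA 447 16 41 997 65 700 (by decide +kernel)
def sA_448 : SufG GrpA 448 :=
  mkS GrpA 448 16 41 1000 65 700 (by decide +kernel)
def sA_449 : SufG GrpA 449 :=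
  mkS GrpA 449 16 41 1006 65 700 (by decide +kernel)
def sA_450 : SufG GrpA 450 :=
  mkS GrpA 450 16 41 1012 65 700 (by decide +kernel)
def sA_451 : SufG GrpA 451 :=
  mkS GrpA 451 16 41 1018 65 700 (by decide +kernel)
def sA_452 : SufG GrpA 452 :=
  mkS GrpA 452 16 41 1021 65 700 (by decide +kernel)
def sA_453 : SufG GrpA 453 :=
  mkS GrpA 453 16 41 1024 65 700 (by decide +kernel)
def sA_454 : SufG GrpA 454 :=
  mkS GrpA 454 16 41 1027 65 700 (by decide +kernel)
def sA_455 : SufG GrpA 455 :=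
  mkS GrpA 455 16 41 1033 65 700 (by decide +kernel)
def sA_456 : SufG GrpA 456 :=
  mkS GrpA 456 16 41 1039 65 700 (by decide +kernel)
def sA_457 : SufG GrpA 457 :=
  mkS GrpA 457 16 41 1046 65 700 (by decide +kernel)
def sA_458 : SufG GrpA 458 :=
  mkS GrpA 458 16 41 1053 65 700 (by decide +kernel)
def sA_459 : SufG GrpA 459 :=
  mkS GrpA 459 16 41 1059 65 700 (by decide +kernel)
def sA_460 : SufG GrpA 460 :=
  mkS GrpA 460 16 41 1062 65 700 (by decide +kernel)
def sA_461 : SufG GrpA 461 :=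
  mkS GrpA 461 16 41 1065 65 700 (by decide +kernel)
def sA_462 : SufG GrpA 462 :=
  mkS GrpA 462 16 41 1071 65 700 (by decide +kernel)
def sA_463 : SufG GrpA 463 :=
  mkS GrpA 463 16 41 1074 65 700 (by decide +kernel)
def sA_464 : SufG GrpA 464 :=
  mkS GrpA 464 16 41 1075 65 700 (by decide +kernel)
def sA_465 : SufG GrpA 465 :=
  mkS GrpA 465 16 41 1082 65 700 (by decide +kernel)

end Pool.Agent.Gen.TY.FS
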