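import Pool.Agent.Gen.TY.FC.GrpAB
import Pool.Agent.Helper20.TY.FrameX

/-!
MP_8ee768_co, project TH-Y', stage F: the starts of the groups of the type B for every class.
-/

set_option autoImplicit false

namespace Pool.Agent.Gen.TY.FS

open Pool.Agent.Gen.TY.FC
open Pool.Agent.Helper20.TY (SufG mkS)

def sB_0 : SufG GrpB 0 :=
  mkS GrpB 0 0 0 0 0 0 (by decide +kernel)
def sB_1 : SufG GrpB 1 :=
  mkS GrpB 1 0 0 0 0 0 (by decide +kernel)
def sB_2 : SufG GrpB 2 :=
  mkS GrpB 2 2 0 0 0 0 (by decide +kernel)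
def sB_3 : SufG GrpB 3 :=
  mkS GrpB 3 3 0 0 0 0 (by decide +kernel)
def sB_4 : SufG GrpB 4 :=
  mkS GrpB 4 4 0 0 0 0 (by decide +kernel)
def sB_5 : SufG GrpB 5 :=
  mkS GrpB 5 5 0 0 0 0 (by decide +kernel)
def sB_6 : SufG GrpB 6 :=
  mkS GrpB 6 8 0 0 0 0 (by decide +kernel)
def sB_7 : SufG GrpB 7 :=
  mkS GrpB 7 9 0 0 0 0 (by decide +kernel)
def sB_8 : SufG GrpB 8 :=
  mkS GrpB 8 11 0 0 0 0 (by decide +kernel)
def sB_9 : SufG GrpB 9 :=
  mkS GrpB 9 12 0 0 0 0 (by decide +kernel)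
def sB_10 : SufG GrpB 10 :=
  mkS GrpB 10 13 0 0 0 0 (by decide +kernel)
def sB_11 : SufG GrpB 11 :=
  mkS GrpB 11 15 0 0 0 0 (by decide +kernel)
def sB_12 : SufG GrpB 12 :=
  mkS GrpB 12 16 0 0 0 0 (by decide +kernel)
def sB_13 : SufG GrpB 13 :=
  mkS GrpB 13 17 0 0 0 0 (by decide +kernel)
def sB_14 : SufG GrpB 14 :=
  mkS GrpB 14 17 0 0 0 0 (by decide +kernel)
def sB_15 : SufG GrpB 15 :=
  mkS GrpB 15 17 1 0 2 0 (by decide +kernel)
def sB_16 : SufG GrpB 16 :=
  mkS GrpB 16 17 2 0 4 0 (by decide +kernel)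
def sB_17 : SufG GrpB 17 :=
  mkS GrpB 17 17 4 0 6 0 (by decide +kernel)
def sB_18 : SufG GrpB 18 :=
  mkS GrpB 18 17 6 0 8 0 (by decide +kernel)
def sB_19 : SufG GrpB 19 :=
  mkS GrpB 19 17 7 0 11 0 (by decide +kernel)
def sB_20 : SufG GrpB 20 :=
  mkS GrpB 20 17 8 0 12 0 (by decide +kernel)
def sB_21 : SufG GrpB 21 :=
  mkS GrpB 21 17 9 0 13 0 (by decide +kernel)
def sB_22 : SufG GrpB 22 :=
  mkS GrpB 22 17 10 0 14 0 (by decide +kernel)
def sB_23 : SufG GrpB 23 :=
  mkS GrpB 23 17 10 0 17 0 (by decide +kernel)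
def sB_24 : SufG GrpB 24 :=
  mkS GrpB 24 17 10 0 20 0 (by decide +kernel)
def sB_25 : SufG GrpB 25 :=
  mkS GrpB 25 17 10 0 23 0 (by decide +kernel)
def sB_26 : SufG GrpB 26 :=
  mkS GrpB 26 17 10 0 30 0 (by decide +kernel)
def sB_27 : SufG GrpB 27 :=
  mkS GrpB 27 17 10 0 35 0 (by decide +kernel)
def sB_28 : SufG GrpB 28 :=
  mkS GrpB 28 17 10 0 38 0 (by decide +kernel)
def sB_29 : SufG GrpB 29 :=
  mkS GrpB 29 17 10 0 41 0 (by decide +kernel)
def sB_30 : SufG GrpB 30 :=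
  mkS GrpB 30 17 10 0 44 0 (by decide +kernel)
def sB_31 : SufG GrpB 31 :=
  mkS GrpB 31 17 10 0 45 0 (by decide +kernel)
def sB_32 : SufG GrpB 32 :=
  mkS GrpB 32 17 10 0 48 0 (by decide +kernel)
def sB_33 : SufG GrpB 33 :=
  mkS GrpB 33 17 10 0 52 0 (by decide +kernel)
def sB_34 : SufG GrpB 34 :=
  mkS GrpB 34 17 13 0 52 0 (by decide +kernel)
def sB_35 : SufG GrpB 35 :=
  mkS GrpB 35 17 17 0 52 0 (by decide +kernel)
def sB_36 : SufG GrpB 36 :=
  mkS GrpB 36 17 18 0 52 0 (by decide +kernel)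
def sB_37 : SufG GrpB 37 :=
  mkS GrpB 37 17 19 0 52 0 (by decide +kernel)
def sB_38 : SufG GrpB 38 :=
  mkS GrpB 38 17 20 0 52 0 (by decide +kernel)
def sB_39 : SufG GrpB 39 :=
  mkS GrpB 39 17 21 0 52 0 (by decide +kernel)
def sB_40 : SufG GrpB 40 :=
  mkS GrpB 40 17 21 0 52 0 (by decide +kernel)
def sB_41 : SufG GrpB 41 :=
  mkS GrpB 41 17 21 0 52 0 (by decide +kernel)
def sB_42 : SufG GrpB 42 :=
  mkS GrpB 42 17 21 0 52 0 (by decide +kernel)
def sB_43 : SufG GrpB 43 :=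
  mkS GrpB 43 17 21 0 52 0 (by decide +kernel)
def sB_44 : SufG GrpB 44 :=
  mkS GrpB 44 17 21 0 52 0 (by decide +kernel)
def sB_45 : SufG GrpB 45 :=
  mkS GrpB 45 17 21 0 52 0 (by decide +kernel)
def sB_46 : SufG GrpB 46 :=
  mkS GrpB 46 17 21 0 52 0 (by decide +kernel)
def sB_47 : SufG GrpB 47 :=
  mkS GrpB 47 17 21 0 52 4 (by decide +kernel)
def sB_48 : SufG GrpB 48 :=
  mkS GrpB 48 17 21 1 52 6 (by decide +kernel)
def sB_49 : SufG GrpB 49 :=
  mkS GrpB 49 17 21 2 52 8 (by decide +kernel)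
def sB_50 : SufG GrpB 50 :=
  mkS GrpB 50 17 21 2 52 11 (by decide +kernel)
def sB_51 : SufG GrpB 51 :=
  mkS GrpB 51 17 21 2 52 14 (by decide +kernel)
def sB_52 : SufG GrpB 52 :=
  mkS GrpB 52 17 21 2 52 17 (by decide +kernel)
def sB_53 : SufG GrpB 53 :=
  mkS GrpB 53 17 21 3 52 19 (by decide +kernel)
def sB_54 : SufG GrpB 54 :=
  mkS GrpB 54 17 21 4 52 21 (by decide +kernel)
def sB_55 : SufG GrpB 55 :=
  mkS GrpB 55 17 21 5 52 23 (by decide +kernel)
def sB_56 : SufG GrpB 56 :=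
  mkS GrpB 56 17 21 5 52 24 (by decide +kernel)
def sB_57 : SufG GrpB 57 :=
  mkS GrpB 57 17 21 5 52 25 (by decide +kernel)
def sB_58 : SufG GrpB 58 :=
  mkS GrpB 58 17 21 5 52 28 (by decide +kernel)
def sB_59 : SufG GrpB 59 :=
  mkS GrpB 59 17 21 5 52 31 (by decide +kernel)
def sB_60 : SufG GrpB 60 :=
  mkS GrpB 60 17 21 5 52 32 (by decide +kernel)
def sB_61 : SufG GrpB 61 :=
  mkS GrpB 61 17 21 5 52 33 (by decide +kernel)
def sB_62 : SufG GrpB 62 :=
  mkS GrpB 62 17 21 5 52 34 (by decide +kernel)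
def sB_63 : SufG GrpB 63 :=
  mkS GrpB 63 17 21 5 52 35 (by decide +kernel)
def sB_64 : SufG GrpB 64 :=
  mkS GrpB 64 17 21 5 52 38 (by decide +kernel)
def sB_65 : SufG GrpB 65 :=
  mkS GrpB 65 17 21 5 52 39 (by decide +kernel)
def sB_66 : SufG GrpB 66 :=
  mkS GrpB 66 17 21 5 52 42 (by decide +kernel)
def sB_67 : SufG GrpB 67 :=
  mkS GrpB 67 17 21 5 52 43 (by decide +kernel)
def sB_68 : SufG GrpB 68 :=
  mkS GrpB 68 17 21 6 52 44 (by decide +kernel)
def sB_69 : SufG GrpB 69 :=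
  mkS GrpB 69 17 21 6 52 48 (by decide +kernel)
def sB_70 : SufG GrpB 70 :=
  mkS GrpB 70 17 21 6 52 52 (by decide +kernel)
def sB_71 : SufG GrpB 71 :=
  mkS GrpB 71 17 21 6 52 55 (by decide +kernel)
def sB_72 : SufG GrpB 72 :=
  mkS GrpB 72 17 21 6 52 58 (by decide +kernel)
def sB_73 : SufG GrpB 73 :=
  mkS GrpB 73 17 21 6 52 62 (by decide +kernel)
def sB_74 : SufG GrpB 74 :=
  mkS GrpB 74 17 21 6 52 64 (by decide +kernel)
def sB_75 : SufG GrpB 75 :=
  mkS GrpB 75 17 21 6 52 67 (by decide +kernel)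
def sB_76 : SufG GrpB 76 :=
  mkS GrpB 76 17 21 6 52 70 (by decide +kernel)
def sB_77 : SufG GrpB 77 :=
  mkS GrpB 77 17 21 6 52 71 (by decide +kernel)
def sB_78 : SufG GrpB 78 :=
  mkS GrpB 78 17 21 6 52 72 (by decide +kernel)
def sB_79 : SufG GrpB 79 :=
  mkS GrpB 79 17 21 6 52 73 (by decide +kernel)
def sB_80 : SufG GrpB 80 :=
  mkS GrpB 80 17 21 6 52 77 (by decide +kernel)
def sB_81 : SufG GrpB 81 :=
  mkS GrpB 81 17 21 6 52 81 (by decide +kernel)
def sB_82 : SufG GrpB 82 :=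
  mkS GrpB 82 17 21 7 52 82 (by decide +kernel)
def sB_83 : SufG GrpB 83 :=
  mkS GrpB 83 17 21 7 52 84 (by decide +kernel)
def sB_84 : SufG GrpB 84 :=
  mkS GrpB 84 17 21 7 52 86 (by decide +kernel)
def sB_85 : SufG GrpB 85 :=
  mkS GrpB 85 17 21 7 52 89 (by decide +kernel)
def sB_86 : SufG GrpB 86 :=
  mkS GrpB 86 17 21 7 52 92 (by decide +kernel)
def sB_87 : SufG GrpB 87 :=
  mkS GrpB 87 17 21 7 52 95 (by decide +kernel)
def sB_88 : SufG GrpB 88 :=
  mkS GrpB 88 17 21 7 52 98 (by decide +kernel)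
def sB_89 : SufG GrpB 89 :=
  mkS GrpB 89 17 21 7 52 101 (by decide +kernel)
def sB_90 : SufG GrpB 90 :=
  mkS GrpB 90 17 21 7 52 104 (by decide +kernel)
def sB_91 : SufG GrpB 91 :=
  mkS GrpB 91 17 21 7 52 107 (by decide +kernel)
def sB_92 : SufG GrpB 92 :=
  mkS GrpB 92 17 21 7 52 110 (by decide +kernel)
def sB_93 : SufG GrpB 93 :=
  mkS GrpB 93 17 21 8 52 112 (by decide +kernel)
def sB_94 : SufG GrpB 94 :=
  mkS GrpB 94 17 21 8 52 113 (by decide +kernel)
def sB_95 : SufG GrpB 95 :=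
  mkS GrpB 95 17 21 8 52 114 (by decide +kernel)
def sB_96 : SufG GrpB 96 :=
  mkS GrpB 96 17 21 8 52 115 (by decide +kernel)
def sB_97 : SufG GrpB 97 :=
  mkS GrpB 97 17 21 8 52 116 (by decide +kernel)
def sB_98 : SufG GrpB 98 :=
  mkS GrpB 98 17 21 9 52 118 (by decide +kernel)
def sB_99 : SufG GrpB 99 :=
  mkS GrpB 99 17 21 9 52 120 (by decide +kernel)
def sB_100 : SufG GrpB 100 :=
  mkS GrpB 100 17 21 9 52 123 (by decide +kernel)
def sB_101 : SufG GrpB 101 :=
  mkS GrpB 101 17 21 10 52 125 (by decide +kernel)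
def sB_102 : SufG GrpB 102 :=
  mkS GrpB 102 17 21 11 52 127 (by decide +kernel)
def sB_103 : SufG GrpB 103 :=
  mkS GrpB 103 17 21 12 52 129 (by decide +kernel)
def sB_104 : SufG GrpB 104 :=
  mkS GrpB 104 17 21 12 52 131 (by decide +kernel)
def sB_105 : SufG GrpB 105 :=
  mkS GrpB 105 17 21 12 52 135 (by decide +kernel)
def sB_106 : SufG GrpB 106 :=
  mkS GrpB 106 17 21 12 52 138 (by decide +kernel)
def sB_107 : SufG GrpB 107 :=
  mkS GrpB 107 17 21 12 52 141 (by decide +kernel)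
def sB_108 : SufG GrpB 108 :=
  mkS GrpB 108 17 21 12 52 144 (by decide +kernel)
def sB_109 : SufG GrpB 109 :=
  mkS GrpB 109 17 21 12 52 146 (by decide +kernel)
def sB_110 : SufG GrpB 110 :=
  mkS GrpB 110 17 21 12 52 150 (by decide +kernel)
def sB_111 : SufG GrpB 111 :=
  mkS GrpB 111 17 21 13 52 152 (by decide +kernel)
def sB_112 : SufG GrpB 112 :=
  mkS GrpB 112 17 21 13 52 154 (by decide +kernel)
def sB_113 : SufG GrpB 113 :=
  mkS GrpB 113 17 21 13 52 157 (by decide +kernel)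
def sB_114 : SufG GrpB 114 :=
  mkS GrpB 114 17 21 13 52 158 (by decide +kernel)
def sB_115 : SufG GrpB 115 :=
  mkS GrpB 115 17 21 13 52 159 (by decide +kernel)
def sB_116 : SufG GrpB 116 :=
  mkS GrpB 116 17 21 13 52 160 (by decide +kernel)
def sB_117 : SufG GrpB 117 :=
  mkS GrpB 117 17 21 13 52 163 (by decide +kernel)
def sB_118 : SufG GrpB 118 :=
  mkS GrpB 118 17 21 14 52 166 (by decide +kernel)
def sB_119 : SufG GrpB 119 :=
  mkS GrpB 119 17 21 15 52 168 (by decide +kernel)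
def sB_120 : SufG GrpB 120 :=
  mkS GrpB 120 17 21 16 52 169 (by decide +kernel)
def sB_121 : SufG GrpB 121 :=
  mkS GrpB 121 17 21 17 52 172 (by decide +kernel)
def sB_122 : SufG GrpB 122 :=
  mkS GrpB 122 17 21 18 52 173 (by decide +kernel)
def sB_123 : SufG GrpB 123 :=
  mkS GrpB 123 17 21 19 52 174 (by decide +kernel)
def sB_124 : SufG GrpB 124 :=
  mkS GrpB 124 17 21 19 52 177 (by decide +kernel)
def sB_125 : SufG GrpB 125 :=
  mkS GrpB 125 17 21 20 52 177 (by decide +kernel)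
def sB_126 : SufG GrpB 126 :=
  mkS GrpB 126 17 21 21 52 177 (by decide +kernel)
def sB_127 : SufG GrpB 127 :=
  mkS GrpB 127 17 21 22 52 180 (by decide +kernel)
def sB_128 : SufG GrpB 128 :=
  mkS GrpB 128 17 21 23 52 180 (by decide +kernel)
def sB_129 : SufG GrpB 129 :=
  mkS GrpB 129 17 21 23 52 181 (by decide +kernel)
def sB_130 : SufG GrpB 130 :=
  mkS GrpB 130 17 21 24 52 183 (by decide +kernel)
def sB_131 : SufG GrpB 131 :=
  mkS GrpB 131 17 21 25 52 185 (by decide +kernel)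
def sB_132 : SufG GrpB 132 :=
  mkS GrpB 132 17 21 26 52 187 (by decide +kernel)
def sB_133 : SufG GrpB 133 :=
  mkS GrpB 133 17 21 27 52 189 (by decide +kernel)
def sB_134 : SufG GrpB 134 :=
  mkS GrpB 134 17 21 27 52 192 (by decide +kernel)
def sB_135 : SufG GrpB 135 :=
  mkS GrpB 135 17 21 27 52 193 (by decide +kernel)
def sB_136 : SufG GrpB 136 :=
  mkS GrpB 136 17 21 28 52 194 (by decide +kernel)
def sB_137 : SufG GrpB 137 :=
  mkS GrpB 137 17 21 28 52 197 (by decide +kernel)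
def sB_138 : SufG GrpB 138 :=
  mkS GrpB 138 17 21 28 52 200 (by decide +kernel)
def sB_139 : SufG GrpB 139 :=
  mkS GrpB 139 17 21 28 52 203 (by decide +kernel)
def sB_140 : SufG GrpB 140 :=
  mkS GrpB 140 17 21 28 52 206 (by decide +kernel)
def sB_141 : SufG GrpB 141 :=
  mkS GrpB 141 17 21 29 52 208 (by decide +kernel)
def sB_142 : SufG GrpB 142 :=
  mkS GrpB 142 17 21 29 52 210 (by decide +kernel)
def sB_143 : SufG GrpB 143 :=
  mkS GrpB 143 17 21 29 52 213 (by decide +kernel)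
def sB_144 : SufG GrpB 144 :=
  mkS GrpB 144 17 21 29 52 214 (by decide +kernel)
def sB_145 : SufG GrpB 145 :=
  mkS GrpB 145 17 21 29 52 216 (by decide +kernel)
def sB_146 : SufG GrpB 146 :=
  mkS GrpB 146 17 21 29 52 218 (by decide +kernel)
def sB_147 : SufG GrpB 147 :=
  mkS GrpB 147 17 21 29 52 220 (by decide +kernel)
def sB_148 : SufG GrpB 148 :=
  mkS GrpB 148 17 21 29 52 222 (by decide +kernel)
def sB_149 : SufG GrpB 149 :=
  mkS GrpB 149 17 21 29 52 225 (by decide +kernel)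
def sB_150 : SufG GrpB 150 :=
  mkS GrpB 150 17 21 29 52 227 (by decide +kernel)
def sB_151 : SufG GrpB 151 :=
  mkS GrpB 151 17 21 29 52 228 (by decide +kernel)
def sB_152 : SufG GrpB 152 :=
  mkS GrpB 152 17 21 29 52 229 (by decide +kernel)
def sB_153 : SufG GrpB 153 :=
  mkS GrpB 153 17 21 29 52 230 (by decide +kernel)
def sB_154 : SufG GrpB 154 :=
  mkS GrpB 154 17 21 29 52 232 (by decide +kernel)
def sB_155 : SufG GrpB 155 :=
  mkS GrpB 155 17 21 29 52 234 (by decide +kernel)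
def sB_156 : SufG GrpB 156 :=
  mkS GrpB 156 17 21 30 52 237 (by decide +kernel)
def sB_157 : SufG GrpB 157 :=
  mkS GrpB 157 17 21 30 52 240 (by decide +kernel)
def sB_158 : SufG GrpB 158 :=
  mkS GrpB 158 17 21 30 52 242 (by decide +kernel)
def sB_159 : SufG GrpB 159 :=
  mkS GrpB 159 17 21 30 52 244 (by decide +kernel)
def sB_160 : SufG GrpB 160 :=
  mkS GrpB 160 17 21 30 52 246 (by decide +kernel)
def sB_161 : SufG GrpB 161 :=
  mkS GrpB 161 17 21 30 52 248 (by decide +kernel)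
def sB_162 : SufG GrpB 162 :=
  mkS GrpB 162 17 21 30 52 249 (by decide +kernel)
def sB_163 : SufG GrpB 163 :=
  mkS GrpB 163 17 21 30 52 251 (by decide +kernel)
def sB_164 : SufG GrpB 164 :=
  mkS GrpB 164 17 21 30 52 253 (by decide +kernel)
def sB_165 : SufG GrpB 165 :=
  mkS GrpB 165 17 21 30 52 255 (by decide +kernel)
def sB_166 : SufG GrpB 166 :=
  mkS GrpB 166 17 21 30 52 257 (by decide +kernel)
def sB_167 : SufG GrpB 167 :=
  mkS GrpB 167 17 21 30 52 259 (by decide +kernel)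
def sB_168 : SufG GrpB 168 :=
  mkS GrpB 168 17 21 30 52 261 (by decide +kernel)
def sB_169 : SufG GrpB 169 :=
  mkS GrpB 169 17 21 30 52 263 (by decide +kernel)
def sB_170 : SufG GrpB 170 :=
  mkS GrpB 170 17 21 30 52 265 (by decide +kernel)
def sB_171 : SufG GrpB 171 :=
  mkS GrpB 171 17 21 30 52 268 (by decide +kernel)
def sB_172 : SufG GrpB 172 :=
  mkS GrpB 172 17 21 30 52 271 (by decide +kernel)
def sB_173 : SufG GrpB 173 :=
  mkS GrpB 173 17 21 30 52 274 (by decide +kernel)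
def sB_174 : SufG GrpB 174 :=
  mkS GrpB 174 17 21 30 52 277 (by decide +kernel)
def sB_175 : SufG GrpB 175 :=
  mkS GrpB 175 17 21 30 52 280 (by decide +kernel)
def sB_176 : SufG GrpB 176 :=
  mkS GrpB 176 17 21 30 52 283 (by decide +kernel)
def sB_177 : SufG GrpB 177 :=
  mkS GrpB 177 17 21 30 52 286 (by decide +kernel)
def sB_178 : SufG GrpB 178 :=
  mkS GrpB 178 17 21 30 52 288 (by decide +kernel)
def sB_179 : SufG GrpB 179 :=
  mkS GrpB 179 17 21 30 52 289 (by decide +kernel)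
def sB_180 : SufG GrpB 180 :=
  mkS GrpB 180 17 21 30 52 290 (by decide +kernel)
def sB_181 : SufG GrpB 181 :=
  mkS GrpB 181 17 21 30 52 291 (by decide +kernel)
def sB_182 : SufG GrpB 182 :=
  mkS GrpB 182 17 21 30 52 292 (by decide +kernel)
def sB_183 : SufG GrpB 183 :=
  mkS GrpB 183 17 21 30 52 294 (by decide +kernel)
def sB_184 : SufG GrpB 184 :=
  mkS GrpB 184 17 21 30 52 295 (by decide +kernel)
def sB_185 : SufG GrpB 185 :=
  mkS GrpB 185 17 21 30 52 296 (by decide +kernel)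
def sB_186 : SufG GrpB 186 :=
  mkS GrpB 186 17 21 30 52 297 (by decide +kernel)
def sB_187 : SufG GrpB 187 :=
  mkS GrpB 187 17 21 30 52 299 (by decide +kernel)
def sB_188 : SufG GrpB 188 :=
  mkS GrpB 188 17 21 30 52 301 (by decide +kernel)
def sB_189 : SufG GrpB 189 :=
  mkS GrpB 189 17 21 30 52 303 (by decide +kernel)
def sB_190 : SufG GrpB 190 :=
  mkS GrpB 190 17 21 30 52 305 (by decide +kernel)
def sB_191 : SufG GrpB 191 :=
  mkS GrpB 191 17 21 30 52 307 (by decide +kernel)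
def sB_192 : SufG GrpB 192 :=
  mkS GrpB 192 17 21 30 52 309 (by decide +kernel)
def sB_193 : SufG GrpB 193 :=
  mkS GrpB 193 17 21 30 52 311 (by decide +kernel)
def sB_194 : SufG GrpB 194 :=
  mkS GrpB 194 17 21 30 52 313 (by decide +kernel)
def sB_195 : SufG GrpB 195 :=
  mkS GrpB 195 17 21 30 52 315 (by decide +kernel)
def sB_196 : SufG GrpB 196 :=
  mkS GrpB 196 17 21 30 52 317 (by decide +kernel)
def sB_197 : SufG GrpB 197 :=
  mkS GrpB 197 17 21 30 52 319 (by decide +kernel)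
def sB_198 : SufG GrpB 198 :=
  mkS GrpB 198 17 21 30 52 321 (by decide +kernel)
def sB_199 : SufG GrpB 199 :=
  mkS GrpB 199 17 21 30 52 323 (by decide +kernel)
def sB_200 : SufG GrpB 200 :=
  mkS GrpB 200 17 21 30 52 324 (by decide +kernel)
def sB_201 : SufG GrpB 201 :=
  mkS GrpB 201 17 21 30 52 325 (by decide +kernel)
def sB_202 : SufG GrpB 202 :=
  mkS GrpB 202 17 21 30 52 327 (by decide +kernel)
def sB_203 : SufG GrpB 203 :=
  mkS GrpB 203 17 21 30 52 329 (by decide +kernel)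
def sB_204 : SufG GrpB 204 :=
  mkS GrpB 204 17 21 30 52 331 (by decide +kernel)
def sB_205 : SufG GrpB 205 :=
  mkS GrpB 205 17 21 30 52 333 (by decide +kernel)
def sB_206 : SufG GrpB 206 :=
  mkS GrpB 206 17 21 30 52 335 (by decide +kernel)
def sB_207 : SufG GrpB 207 :=
  mkS GrpB 207 17 21 30 52 336 (by decide +kernel)
def sB_208 : SufG GrpB 208 :=
  mkS GrpB 208 17 21 30 52 340 (by decide +kernel)
def sB_209 : SufG GrpB 209 :=
  mkS GrpB 209 17 21 30 52 341 (by decide +kernel)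
def sB_210 : SufG GrpB 210 :=
  mkS GrpB 210 17 21 30 52 342 (by decide +kernel)
def sB_211 : SufG GrpB 211 :=
  mkS GrpB 211 17 21 30 52 343 (by decide +kernel)
def sB_212 : SufG GrpB 212 :=
  mkS GrpB 212 17 21 30 52 344 (by decide +kernel)
def sB_213 : SufG GrpB 213 :=
  mkS GrpB 213 17 21 30 52 344 (by decide +kernel)
def sB_214 : SufG GrpB 214 :=
  mkS GrpB 214 17 21 30 52 344 (by decide +kernel)
def sB_215 : SufG GrpB 215 :=
  mkS GrpB 215 17 21 30 52 344 (by decide +kernel)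
def sB_216 : SufG GrpB 216 :=
  mkS GrpB 216 17 21 30 52 344 (by decide +kernel)
def sB_217 : SufG GrpB 217 :=
  mkS GrpB 217 17 21 30 52 344 (by decide +kernel)
def sB_218 : SufG GrpB 218 :=
  mkS GrpB 218 17 21 30 52 344 (by decide +kernel)
def sB_219 : SufG GrpB 219 :=
  mkS GrpB 219 17 21 30 52 344 (by decide +kernel)
def sB_220 : SufG GrpB 220 :=
  mkS GrpB 220 17 21 30 52 344 (by decide +kernel)
def sB_221 : SufG GrpB 221 :=
  mkS GrpB 221 17 21 30 52 344 (by decide +kernel)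
def sB_222 : SufG GrpB 222 :=
  mkS GrpB 222 17 21 30 52 344 (by decide +kernel)
def sB_223 : SufG GrpB 223 :=
  mkS GrpB 223 17 21 30 52 344 (by decide +kernel)
def sB_224 : SufG GrpB 224 :=
  mkS GrpB 224 17 21 30 52 344 (by decide +kernel)
def sB_225 : SufG GrpB 225 :=
  mkS GrpB 225 17 21 30 52 344 (by decide +kernel)
def sB_226 : SufG GrpB 226 :=
  mkS GrpB 226 17 21 30 52 344 (by decide +kernel)
def sB_227 : SufG GrpB 227 :=
  mkS GrpB 227 17 21 30 52 344 (by decide +kernel)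
def sB_228 : SufG GrpB 228 :=
  mkS GrpB 228 17 21 30 52 344 (by decide +kernel)
def sB_229 : SufG GrpB 229 :=
  mkS GrpB 229 17 21 30 52 344 (by decide +kernel)
def sB_230 : SufG GrpB 230 :=
  mkS GrpB 230 17 21 30 52 344 (by decide +kernel)
def sB_231 : SufG GrpB 231 :=
  mkS GrpB 231 17 21 30 52 344 (by decide +kernel)
def sB_232 : SufG GrpB 232 :=
  mkS GrpB 232 17 21 30 52 344 (by decide +kernel)
def sB_233 : SufG GrpB 233 :=
  mkS GrpB 233 17 21 30 52 344 (by decide +kernel)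
def sB_234 : SufG GrpB 234 :=
  mkS GrpB 234 17 21 30 52 344 (by decide +kernel)
def sB_235 : SufG GrpB 235 :=
  mkS GrpB 235 17 21 30 52 344 (by decide +kernel)
def sB_236 : SufG GrpB 236 :=
  mkS GrpB 236 17 21 30 52 344 (by decide +kernel)
def sB_237 : SufG GrpB 237 :=
  mkS GrpB 237 17 21 30 52 344 (by decide +kernel)
def sB_238 : SufG GrpB 238 :=
  mkS GrpB 238 17 21 35 52 344 (by decide +kernel)
def sB_239 : SufG GrpB 239 :=
  mkS GrpB 239 17 21 37 52 344 (by decide +kernel)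
def sB_240 : SufG GrpB 240 :=
  mkS GrpB 240 17 21 45 52 344 (by decide +kernel)
def sB_241 : SufG GrpB 241 :=
  mkS GrpB 241 17 21 53 52 344 (by decide +kernel)
def sB_242 : SufG GrpB 242 :=
  mkS GrpB 242 17 21 61 52 344 (by decide +kernel)
def sB_243 : SufG GrpB 243 :=
  mkS GrpB 243 17 21 65 52 344 (by decide +kernel)
def sB_244 : SufG GrpB 244 :=
  mkS GrpB 244 17 21 69 52 344 (by decide +kernel)
def sB_245 : SufG GrpB 245 :=
  mkS GrpB 245 17 21 73 52 344 (by decide +kernel)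
def sB_246 : SufG GrpB 246 :=
  mkS GrpB 246 17 21 77 52 344 (by decide +kernel)
def sB_247 : SufG GrpB 247 :=
  mkS GrpB 247 17 21 80 52 344 (by decide +kernel)
def sB_248 : SufG GrpB 248 :=
  mkS GrpB 248 17 21 82 52 344 (by decide +kernel)
def sB_249 : SufG GrpB 249 :=
  mkS GrpB 249 17 21 88 52 344 (by decide +kernel)
def sB_250 : SufG GrpB 250 :=
  mkS GrpB 250 17 21 91 52 344 (by decide +kernel)
def sB_251 : SufG GrpB 251 :=
  mkS GrpB 251 17 21 93 52 344 (by decide +kernel)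
def sB_252 : SufG GrpB 252 :=
  mkS GrpB 252 17 21 97 52 344 (by decide +kernel)
def sB_253 : SufG GrpB 253 :=
  mkS GrpB 253 17 21 99 52 344 (by decide +kernel)
def sB_254 : SufG GrpB 254 :=
  mkS GrpB 254 17 21 103 52 344 (by decide +kernel)
def sB_255 : SufG GrpB 255 :=
  mkS GrpB 255 17 21 105 52 344 (by decide +kernel)
def sB_256 : SufG GrpB 256 :=
  mkS GrpB 256 17 21 108 52 344 (by decide +kernel)
def sB_257 : SufG GrpB 257 :=
  mkS GrpB 257 17 21 112 52 344 (by decide +kernel)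
def sB_258 : SufG GrpB 258 :=
  mkS GrpB 258 17 21 113 52 344 (by decide +kernel)
def sB_259 : SufG GrpB 259 :=
  mkS GrpB 259 17 21 117 52 344 (by decide +kernel)
def sB_260 : SufG GrpB 260 :=
  mkS GrpB 260 17 21 121 52 344 (by decide +kernel)
def sB_261 : SufG GrpB 261 :=
  mkS GrpB 261 17 21 124 52 344 (by decide +kernel)
def sB_262 : SufG GrpB 262 :=
  mkS GrpB 262 17 21 126 52 344 (by decide +kernel)
def sB_263 : SufG GrpB 263 :=
  mkS GrpB 263 17 21 130 52 344 (by decide +kernel)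
def sB_264 : SufG GrpB 264 :=
  mkS GrpB 264 17 21 133 52 344 (by decide +kernel)
def sB_265 : SufG GrpB 265 :=
  mkS GrpB 265 17 21 134 52 344 (by decide +kernel)
def sB_266 : SufG GrpB 266 :=
  mkS GrpB 266 17 21 136 52 344 (by decide +kernel)
def sB_267 : SufG GrpB 267 :=
  mkS GrpB 267 17 21 137 52 344 (by decide +kernel)
def sB_268 : SufG GrpB 268 :=
  mkS GrpB 268 17 21 140 52 344 (by decide +kernel)
def sB_269 : SufG GrpB 269 :=
  mkS GrpB 269 17 21 142 52 344 (by decide +kernel)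
def sB_270 : SufG GrpB 270 :=
  mkS GrpB 270 17 21 144 52 344 (by decide +kernel)
def sB_271 : SufG GrpB 271 :=
  mkS GrpB 271 17 21 148 52 344 (by decide +kernel)
def sB_272 : SufG GrpB 272 :=
  mkS GrpB 272 17 21 152 52 344 (by decide +kernel)
def sB_273 : SufG GrpB 273 :=
  mkS GrpB 273 17 21 157 52 344 (by decide +kernel)
def sB_274 : SufG GrpB 274 :=
  mkS GrpB 274 17 21 159 52 344 (by decide +kernel)
def sB_275 : SufG GrpB 275 :=
  mkS GrpB 275 17 21 160 52 344 (by decide +kernel)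
def sB_276 : SufG GrpB 276 :=
  mkS GrpB 276 17 21 168 52 344 (by decide +kernel)
def sB_277 : SufG GrpB 277 :=
  mkS GrpB 277 17 21 176 52 344 (by decide +kernel)
def sB_278 : SufG GrpB 278 :=
  mkS GrpB 278 17 21 179 52 344 (by decide +kernel)
def sB_279 : SufG GrpB 279 :=
  mkS GrpB 279 17 21 182 52 344 (by decide +kernel)
def sB_280 : SufG GrpB 280 :=
  mkS GrpB 280 17 21 185 52 344 (by decide +kernel)
def sB_281 : SufG GrpB 281 :=
  mkS GrpB 281 17 21 186 52 344 (by decide +kernel)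
def sB_282 : SufG GrpB 282 :=
  mkS GrpB 282 17 21 189 52 344 (by decide +kernel)
def sB_283 : SufG GrpB 283 :=
  mkS GrpB 283 17 21 191 52 344 (by decide +kernel)
def sB_284 : SufG GrpB 284 :=
  mkS GrpB 284 17 21 192 52 344 (by decide +kernel)
def sB_285 : SufG GrpB 285 :=
  mkS GrpB 285 17 21 195 52 344 (by decide +kernel)
def sB_286 : SufG GrpB 286 :=
  mkS GrpB 286 17 21 199 52 344 (by decide +kernel)
def sB_287 : SufG GrpB 287 :=
  mkS GrpB 287 17 21 202 52 344 (by decide +kernel)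
def sB_288 : SufG GrpB 288 :=
  mkS GrpB 288 17 21 205 52 344 (by decide +kernel)
def sB_289 : SufG GrpB 289 :=
  mkS GrpB 289 17 21 207 52 344 (by decide +kernel)
def sB_290 : SufG GrpB 290 :=
  mkS GrpB 290 17 21 210 52 344 (by decide +kernel)
def sB_291 : SufG GrpB 291 :=
  mkS GrpB 291 17 21 211 52 344 (by decide +kernel)
def sB_292 : SufG GrpB 292 :=
  mkS GrpB 292 17 21 215 52 344 (by decide +kernel)
def sB_293 : SufG GrpB 293 :=
  mkS GrpB 293 17 21 223 52 344 (by decide +kernel)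
def sB_294 : SufG GrpB 294 :=
  mkS GrpB 294 17 21 225 52 344 (by decide +kernel)
def sB_295 : SufG GrpB 295 :=
  mkS GrpB 295 17 21 227 52 344 (by decide +kernel)
def sB_296 : SufG GrpB 296 :=
  mkS GrpB 296 17 21 232 52 344 (by decide +kernel)
def sB_297 : SufG GrpB 297 :=
  mkS GrpB 297 17 21 237 52 344 (by decide +kernel)
def sB_298 : SufG GrpB 298 :=
  mkS GrpB 298 17 21 239 52 344 (by decide +kernel)
def sB_299 : SufG GrpB 299 :=
  mkS GrpB 299 17 21 241 52 344 (by decide +kernel)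
def sB_300 : SufG GrpB 300 :=
  mkS GrpB 300 17 21 245 52 344 (by decide +kernel)
def sB_301 : SufG GrpB 301 :=
  mkS GrpB 301 17 21 248 52 344 (by decide +kernel)
def sB_302 : SufG GrpB 302 :=
  mkS GrpB 302 17 21 252 52 344 (by decide +kernel)
def sB_303 : SufG GrpB 303 :=
  mkS GrpB 303 17 21 255 52 344 (by decide +kernel)
def sB_304 : SufG GrpB 304 :=
  mkS GrpB 304 17 21 258 52 344 (by decide +kernel)
def sB_305 : SufG GrpB 305 :=
  mkS GrpB 305 17 21 262 52 344 (by decide +kernel)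
def sB_306 : SufG GrpB 306 :=
  mkS GrpB 306 17 21 265 52 344 (by decide +kernel)
def sB_307 : SufG GrpB 307 :=
  mkS GrpB 307 17 21 268 52 344 (by decide +kernel)
def sB_308 : SufG GrpB 308 :=
  mkS GrpB 308 17 21 270 52 344 (by decide +kernel)
def sB_309 : SufG GrpB 309 :=
  mkS GrpB 309 17 21 273 52 344 (by decide +kernel)
def sB_310 : SufG GrpB 310 :=
  mkS GrpB 310 17 21 276 52 344 (by decide +kernel)
def sB_311 : SufG GrpB 311 :=
  mkS GrpB 311 17 21 280 52 344 (by decide +kernel)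
def sB_312 : SufG GrpB 312 :=
  mkS GrpB 312 17 21 284 52 344 (by decide +kernel)
def sB_313 : SufG GrpB 313 :=
  mkS GrpB 313 17 21 286 52 344 (by decide +kernel)
def sB_314 : SufG GrpB 314 :=
  mkS GrpB 314 17 21 289 52 344 (by decide +kernel)
def sB_315 : SufG GrpB 315 :=
  mkS GrpB 315 17 21 290 52 344 (by decide +kernel)
def sB_316 : SufG GrpB 316 :=
  mkS GrpB 316 17 21 294 52 344 (by decide +kernel)
def sB_317 : SufG GrpB 317 :=
  mkS GrpB 317 17 21 297 52 344 (by decide +kernel)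
def sB_318 : SufG GrpB 318 :=
  mkS GrpB 318 17 21 298 52 344 (by decide +kernel)
def sB_319 : SufG GrpB 319 :=
  mkS GrpB 319 17 21 299 52 344 (by decide +kernel)
def sB_320 : SufG GrpB 320 :=
  mkS GrpB 320 17 21 300 52 344 (by decide +kernel)
def sB_321 : SufG GrpB 321 :=
  mkS GrpB 321 17 21 302 52 344 (by decide +kernel)
def sB_322 : SufG GrpB 322 :=
  mkS GrpB 322 17 21 304 52 344 (by decide +kernel)
def sB_323 : SufG GrpB 323 :=
  mkS GrpB 323 17 21 307 52 344 (by decide +kernel)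
def sB_324 : SufG GrpB 324 :=
  mkS GrpB 324 17 21 309 52 344 (by decide +kernel)
def sB_325 : SufG GrpB 325 :=
  mkS GrpB 325 17 21 311 52 344 (by decide +kernel)
def sB_326 : SufG GrpB 326 :=
  mkS GrpB 326 17 21 316 52 344 (by decide +kernel)
def sB_327 : SufG GrpB 327 :=
  mkS GrpB 327 17 21 319 52 344 (by decide +kernel)
def sB_328 : SufG GrpB 328 :=
  mkS GrpB 328 17 21 323 52 344 (by decide +kernel)
def sB_329 : SufG GrpB 329 :=
  mkS GrpB 329 17 21 325 52 344 (by decide +kernel)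
def sB_330 : SufG GrpB 330 :=
  mkS GrpB 330 17 21 327 52 344 (by decide +kernel)
def sB_331 : SufG GrpB 331 :=
  mkS GrpB 331 17 21 328 52 344 (by decide +kernel)
def sB_332 : SufG GrpB 332 :=
  mkS GrpB 332 17 21 329 52 344 (by decide +kernel)
def sB_333 : SufG GrpB 333 :=
  mkS GrpB 333 17 21 330 52 344 (by decide +kernel)
def sB_334 : SufG GrpB 334 :=
  mkS GrpB 334 17 21 331 52 344 (by decide +kernel)
def sB_335 : SufG GrpB 335 :=
  mkS GrpB 335 17 21 332 52 344 (by decide +kernel)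
def sB_336 : SufG GrpB 336 :=
  mkS GrpB 336 17 21 336 52 344 (by decide +kernel)
def sB_337 : SufG GrpB 337 :=
  mkS GrpB 337 17 21 340 52 344 (by decide +kernel)
def sB_338 : SufG GrpB 338 :=
  mkS GrpB 338 17 21 341 52 344 (by decide +kernel)
def sB_339 : SufG GrpB 339 :=
  mkS GrpB 339 17 21 343 52 344 (by decide +kernel)
def sB_340 : SufG GrpB 340 :=
  mkS GrpB 340 17 21 345 52 344 (by decide +kernel)
def sB_341 : SufG GrpB 341 :=
  mkS GrpB 341 17 21 347 52 344 (by decide +kernel)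
def sB_342 : SufG GrpB 342 :=
  mkS GrpB 342 17 21 348 52 344 (by decide +kernel)
def sB_343 : SufG GrpB 343 :=
  mkS GrpB 343 17 21 349 52 344 (by decide +kernel)
def sB_344 : SufG GrpB 344 :=
  mkS GrpB 344 17 21 350 52 344 (by decide +kernel)
def sB_345 : SufG GrpB 345 :=
  mkS GrpB 345 17 21 352 52 344 (by decide +kernel)
def sB_346 : SufG GrpB 346 :=
  mkS GrpB 346 17 21 355 52 344 (by decide +kernel)
def sB_347 : SufG GrpB 347 :=
  mkS GrpB 347 17 21 358 52 344 (by decide +kernel)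
def sB_348 : SufG GrpB 348 :=
  mkS GrpB 348 17 21 361 52 344 (by decide +kernel)
def sB_349 : SufG GrpB 349 :=
  mkS GrpB 349 17 21 362 52 344 (by decide +kernel)
def sB_350 : SufG GrpB 350 :=
  mkS GrpB 350 17 21 364 52 344 (by decide +kernel)
def sB_351 : SufG GrpB 351 :=
  mkS GrpB 351 17 21 366 52 344 (by decide +kernel)
def sB_352 : SufG GrpB 352 :=
  mkS GrpB 352 17 21 369 52 344 (by decide +kernel)
def sB_353 : SufG GrpB 353 :=
  mkS GrpB 353 17 21 371 52 344 (by decide +kernel)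
def sB_354 : SufG GrpB 354 :=
  mkS GrpB 354 17 21 374 52 344 (by decide +kernel)
def sB_355 : SufG GrpB 355 :=
  mkS GrpB 355 17 21 377 52 344 (by decide +kernel)
def sB_356 : SufG GrpB 356 :=
  mkS GrpB 356 17 21 379 52 344 (by decide +kernel)
def sB_357 : SufG GrpB 357 :=
  mkS GrpB 357 17 21 380 52 344 (by decide +kernel)
def sB_358 : SufG GrpB 358 :=
  mkS GrpB 358 17 21 382 52 344 (by decide +kernel)
def sB_359 : SufG GrpB 359 :=
  mkS GrpB 359 17 21 383 52 344 (by decide +kernel)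
def sB_360 : SufG GrpB 360 :=
  mkS GrpB 360 17 21 384 52 344 (by decide +kernel)
def sB_361 : SufG GrpB 361 :=
  mkS GrpB 361 17 21 385 52 344 (by decide +kernel)
def sB_362 : SufG GrpB 362 :=
  mkS GrpB 362 17 21 389 52 344 (by decide +kernel)
def sB_363 : SufG GrpB 363 :=
  mkS GrpB 363 17 21 390 52 344 (by decide +kernel)
def sB_364 : SufG GrpB 364 :=
  mkS GrpB 364 17 21 391 52 344 (by decide +kernel)
def sB_365 : SufG GrpB 365 :=
  mkS GrpB 365 17 21 392 52 344 (by decide +kernel)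
def sB_366 : SufG GrpB 366 :=
  mkS GrpB 366 17 21 396 52 344 (by decide +kernel)
def sB_367 : SufG GrpB 367 :=
  mkS GrpB 367 17 21 400 52 344 (by decide +kernel)
def sB_368 : SufG GrpB 368 :=
  mkS GrpB 368 17 21 404 52 344 (by decide +kernel)
def sB_369 : SufG GrpB 369 :=
  mkS GrpB 369 17 21 406 52 344 (by decide +kernel)
def sB_370 : SufG GrpB 370 :=
  mkS GrpB 370 17 21 407 52 344 (by decide +kernel)
def sB_371 : SufG GrpB 371 :=
  mkS GrpB 371 17 21 409 52 344 (by decide +kernel)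
def sB_372 : SufG GrpB 372 :=
  mkS GrpB 372 17 21 411 52 344 (by decide +kernel)
def sB_373 : SufG GrpB 373 :=
  mkS GrpB 373 17 21 413 52 344 (by decide +kernel)
def sB_374 : SufG GrpB 374 :=
  mkS GrpB 374 17 21 414 52 344 (by decide +kernel)
def sB_375 : SufG GrpB 375 :=
  mkS GrpB 375 17 21 415 52 344 (by decide +kernel)
def sB_376 : SufG GrpB 376 :=
  mkS GrpB 376 17 21 418 52 344 (by decide +kernel)
def sB_377 : SufG GrpB 377 :=
  mkS GrpB 377 17 21 420 52 344 (by decide +kernel)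
def sB_378 : SufG GrpB 378 :=
  mkS GrpB 378 17 21 421 52 344 (by decide +kernel)
def sB_379 : SufG GrpB 379 :=
  mkS GrpB 379 17 21 423 52 344 (by decide +kernel)
def sB_380 : SufG GrpB 380 :=
  mkS GrpB 380 17 21 425 52 344 (by decide +kernel)
def sB_381 : SufG GrpB 381 :=
  mkS GrpB 381 17 21 427 52 344 (by decide +kernel)
def sB_382 : SufG GrpB 382 :=
  mkS GrpB 382 17 21 430 52 344 (by decide +kernel)
def sB_383 : SufG GrpB 383 :=
  mkS GrpB 383 17 21 434 52 344 (by decide +kernel)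
def sB_384 : SufG GrpB 384 :=
  mkS GrpB 384 17 21 437 52 344 (by decide +kernel)
def sB_385 : SufG GrpB 385 :=
  mkS GrpB 385 17 21 438 52 344 (by decide +kernel)
def sB_386 : SufG GrpB 386 :=
  mkS GrpB 386 17 21 439 52 344 (by decide +kernel)
def sB_387 : SufG GrpB 387 :=
  mkS GrpB 387 17 21 440 52 344 (by decide +kernel)
def sB_388 : SufG GrpB 388 :=
  mkS GrpB 388 17 21 441 52 344 (by decide +kernel)
def sB_389 : SufG GrpB 389 :=
  mkS GrpB 389 17 21 442 52 344 (by decide +kernel)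
def sB_390 : SufG GrpB 390 :=
  mkS GrpB 390 17 21 444 52 344 (by decide +kernel)
def sB_391 : SufG GrpB 391 :=
  mkS GrpB 391 17 21 445 52 344 (by decide +kernel)
def sB_392 : SufG GrpB 392 :=
  mkS GrpB 392 17 21 446 52 344 (by decide +kernel)
def sB_393 : SufG GrpB 393 :=
  mkS GrpB 393 17 21 448 52 344 (by decide +kernel)
def sB_394 : SufG GrpB 394 :=
  mkS GrpB 394 17 21 449 52 344 (by decide +kernel)
def sB_395 : SufG GrpB 395 :=
  mkS GrpB 395 17 21 450 52 344 (by decide +kernel)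
def sB_396 : SufG GrpB 396 :=
  mkS GrpB 396 17 21 452 52 344 (by decide +kernel)
def sB_397 : SufG GrpB 397 :=
  mkS GrpB 397 17 21 453 52 344 (by decide +kernel)
def sB_398 : SufG GrpB 398 :=
  mkS GrpB 398 17 21 454 52 344 (by decide +kernel)
def sB_399 : SufG GrpB 399 :=
  mkS GrpB 399 17 21 456 52 344 (by decide +kernel)
def sB_400 : SufG GrpB 400 :=
  mkS GrpB 400 17 21 458 52 344 (by decide +kernel)
def sB_401 : SufG GrpB 401 :=
  mkS GrpB 401 17 21 459 52 344 (by decide +kernel)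
def sB_402 : SufG GrpB 402 :=
  mkS GrpB 402 17 21 460 52 344 (by decide +kernel)
def sB_403 : SufG GrpB 403 :=
  mkS GrpB 403 17 21 461 52 344 (by decide +kernel)
def sB_404 : SufG GrpB 404 :=
  mkS GrpB 404 17 21 462 52 344 (by decide +kernel)
def sB_405 : SufG GrpB 405 :=
  mkS GrpB 405 17 21 463 52 344 (by decide +kernel)
def sB_406 : SufG GrpB 406 :=
  mkS GrpB 406 17 21 465 52 344 (by decide +kernel)
def sB_407 : SufG GrpB 407 :=
  mkS GrpB 407 17 21 467 52 344 (by decide +kernel)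
def sB_408 : SufG GrpB 408 :=
  mkS GrpB 408 17 21 468 52 344 (by decide +kernel)
def sB_409 : SufG GrpB 409 :=
  mkS GrpB 409 17 21 470 52 344 (by decide +kernel)
def sB_410 : SufG GrpB 410 :=
  mkS GrpB 410 17 21 471 52 344 (by decide +kernel)
def sB_411 : SufG GrpB 411 :=
  mkS GrpB 411 17 21 474 52 344 (by decide +kernel)
def sB_412 : SufG GrpB 412 :=
  mkS GrpB 412 17 21 476 52 344 (by decide +kernel)
def sB_413 : SufG GrpB 413 :=
  mkS GrpB 413 17 21 477 52 344 (by decide +kernel)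
def sB_414 : SufG GrpB 414 :=
  mkS GrpB 414 17 21 479 52 344 (by decide +kernel)
def sB_415 : SufG GrpB 415 :=
  mkS GrpB 415 17 21 480 52 344 (by decide +kernel)
def sB_416 : SufG GrpB 416 :=
  mkS GrpB 416 17 21 481 52 344 (by decide +kernel)
def sB_417 : SufG GrpB 417 :=
  mkS GrpB 417 17 21 483 52 344 (by decide +kernel)
def sB_418 : SufG GrpB 418 :=
  mkS GrpB 418 17 21 484 52 344 (by decide +kernel)
def sB_419 : SufG GrpB 419 :=
  mkS GrpB 419 17 21 486 52 344 (by decide +kernel)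
def sB_420 : SufG GrpB 420 :=
  mkS GrpB 420 17 21 487 52 344 (by decide +kernel)
def sB_421 : SufG GrpB 421 :=
  mkS GrpB 421 17 21 488 52 344 (by decide +kernel)
def sB_422 : SufG GrpB 422 :=
  mkS GrpB 422 17 21 489 52 344 (by decide +kernel)
def sB_423 : SufG GrpB 423 :=
  mkS GrpB 423 17 21 491 52 344 (by decide +kernel)
def sB_424 : SufG GrpB 424 :=
  mkS GrpB 424 17 21 492 52 344 (by decide +kernel)
def sB_425 : SufG GrpB 425 :=
  mkS GrpB 425 17 21 493 52 344 (by decide +kernel)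
def sB_426 : SufG GrpB 426 :=
  mkS GrpB 426 17 21 494 52 344 (by decide +kernel)
def sB_427 : SufG GrpB 427 :=
  mkS GrpB 427 17 21 496 52 344 (by decide +kernel)
def sB_428 : SufG GrpB 428 :=
  mkS GrpB 428 17 21 498 52 344 (by decide +kernel)
def sB_429 : SufG GrpB 429 :=
  mkS GrpB 429 17 21 500 52 344 (by decide +kernel)
def sB_430 : SufG GrpB 430 :=
  mkS GrpB 430 17 21 501 52 344 (by decide +kernel)
def sB_431 : SufG GrpB 431 :=
  mkS GrpB 431 17 21 502 52 344 (by decide +kernel)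
def sB_432 : SufG GrpB 432 :=
  mkS GrpB 432 17 21 504 52 344 (by decide +kernel)
def sB_433 : SufG GrpB 433 :=
  mkS GrpB 433 17 21 506 52 344 (by decide +kernel)
def sB_434 : SufG GrpB 434 :=
  mkS GrpB 434 17 21 508 52 344 (by decide +kernel)
def sB_435 : SufG GrpB 435 :=
  mkS GrpB 435 17 21 510 52 344 (by decide +kernel)
def sB_436 : SufG GrpB 436 :=
  mkS GrpB 436 17 21 511 52 344 (by decide +kernel)
def sB_437 : SufG GrpB 437 :=
  mkS GrpB 437 17 21 513 52 344 (by decide +kernel)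
def sB_438 : SufG GrpB 438 :=
  mkS GrpB 438 17 21 514 52 344 (by decide +kernel)
def sB_439 : SufG GrpB 439 :=
  mkS GrpB 439 17 21 516 52 344 (by decide +kernel)
def sB_440 : SufG GrpB 440 :=
  mkS GrpB 440 17 21 517 52 344 (by decide +kernel)
def sB_441 : SufG GrpB 441 :=
  mkS GrpB 441 17 21 519 52 344 (by decide +kernel)
def sB_442 : SufG GrpB 442 :=
  mkS GrpB 442 17 21 520 52 344 (by decide +kernel)
def sB_443 : SufG GrpB 443 :=
  mkS GrpB 443 17 21 521 52 344 (by decide +kernel)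
def sB_444 : SufG GrpB 444 :=
  mkS GrpB 444 17 21 523 52 344 (by decide +kernel)
def sB_445 : SufG GrpB 445 :=
  mkS GrpB 445 17 21 524 52 344 (by decide +kernel)
def sB_446 : SufG GrpB 446 :=
  mkS GrpB 446 17 21 526 52 344 (by decide +kernel)
def sB_447 : SufG GrpB 447 :=
  mkS GrpB 447 17 21 527 52 344 (by decide +kernel)
def sB_448 : SufG GrpB 448 :=
  mkS GrpB 448 17 21 528 52 344 (by decide +kernel)
def sB_449 : SufG GrpB 449 :=
  mkS GrpB 449 17 21 530 52 344 (by decide +kernel)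
def sB_450 : SufG GrpB 450 :=
  mkS GrpB 450 17 21 532 52 344 (by decide +kernel)
def sB_451 : SufG GrpB 451 :=
  mkS GrpB 451 17 21 534 52 344 (by decide +kernel)
def sB_452 : SufG GrpB 452 :=
  mkS GrpB 452 17 21 535 52 344 (by decide +kernel)
def sB_453 : SufG GrpB 453 :=
  mkS GrpB 453 17 21 536 52 344 (by decide +kernel)
def sB_454 : SufG GrpB 454 :=
  mkS GrpB 454 17 21 537 52 344 (by decide +kernel)
def sB_455 : SufG GrpB 455 :=
  mkS GrpB 455 17 21 539 52 344 (by decide +kernel)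
def sB_456 : SufG GrpB 456 :=
  mkS GrpB 456 17 21 541 52 344 (by decide +kernel)
def sB_457 : SufG GrpB 457 :=
  mkS GrpB 457 17 21 542 52 344 (by decide +kernel)
def sB_458 : SufG GrpB 458 :=
  mkS GrpB 458 17 21 544 52 344 (by decide +kernel)
def sB_459 : SufG GrpB 459 :=
  mkS GrpB 459 17 21 546 52 344 (by decide +kernel)
def sB_460 : SufG GrpB 460 :=
  mkS GrpB 460 17 21 547 52 344 (by decide +kernel)
def sB_461 : SufG GrpB 461 :=
  mkS GrpB 461 17 21 548 52 344 (by decide +kernel)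
def sB_462 : SufG GrpB 462 :=
  mkS GrpB 462 17 21 550 52 344 (by decide +kernel)
def sB_463 : SufG GrpB 463 :=
  mkS GrpB 463 17 21 551 52 344 (by decide +kernel)
def sB_464 : SufG GrpB 464 :=
  mkS GrpB 464 17 21 552 52 344 (by decide +kernel)
def sB_465 : SufG GrpB 465 :=
  mkS GrpB 465 17 21 553 52 344 (by decide +kernel)

end Pool.Agent.Gen.TY.FS
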